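import Pool.Agent.K4H5.BD.Main
import Pool.Agent.K4H5.BD.Line

/-!
The Jacobians of superelliptic curves `y ^ n = f(t, x)` over all Galois extensions `L` of `k(t)` of degree a
power of the characteristic `p`, and the differential forms on the branch curve `f(t, x) = 0`: the analytic
rank over `L` is at most linear in `[L : k(t)]`, the constant being the number of the logarithmic forms on
the components of the branch curve. If all components are parametrised by polynomials, the rank is zero
for ALL `L` unramified outside of `∞` and ALL constant twists.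
-/

set_option autoImplicit false

open Polynomial

namespace Pool.Agent.Results.MP_60d5ce_nt.PExtensionsBranchForms

section generic

/-- The closed points of the affine line over the field `F`: monic irreducible polynomials. -/
abbrev ClosedPt (F : Type) [Field F] : Type := {P : F[X] // P.Monic ∧ Irreducible P}

variable {F : Type} [Field F]

/-- The degree of a closed point of the affine line over `F`. -/
noncomputable def ptDegree (P : ClosedPt F) : ℕ := P.1.natDegree

/-- The norm to `k` of the value of the polynomial `g` over `F` at the closed point `Q` of the affine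
line over the extension `F` of `k`. -/
noncomputable def normValue {k : Type} [Field k] [Algebra k F] (g : F[X]) (Q : ClosedPt F) : k :=
  Algebra.norm k (AdjoinRoot.mk Q.1 g)

/-- The Euler product: its coefficient of index `n` is that of the product of the factors of degree
at most `n`. -/
noncomputable def eulerProduct {ι : Type} (d : ι → ℕ) (f : ι → PowerSeries ℂ) : PowerSeries ℂ :=
  PowerSeries.mk fun n => PowerSeries.coeff n (∏ᶠ (i : ι) (_ : d i ≤ n), f i)

end generic

section points

variable {k : Type} [Field k] {O : Type} [CommRing O] [Algebra k[X] O]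

/-- The residue field of a closed point of `Spec O`, for an algebra `O` over `k[t]`. -/
def Res (𝔪 : MaximalSpectrum O) : Type := O ⧸ 𝔪.asIdeal

attribute [local instance] MaximalSpectrum.isMaximal in
noncomputable instance resField (𝔪 : MaximalSpectrum O) : Field (Res 𝔪) :=
  Ideal.Quotient.field 𝔪.asIdeal

/-- The value at `𝔪` of a polynomial in `t`. -/
noncomputable def value (𝔪 : MaximalSpectrum O) : k[X] →+* Res 𝔪 :=
  (Ideal.Quotient.mk 𝔪.asIdeal).comp (algebraMap k[X] O)

noncomputable instance resAlgebra (𝔪 : MaximalSpectrum O) : Algebra k (Res 𝔪) :=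
  ((value 𝔪).comp C).toAlgebra

/-- The closed points of the product of `Spec O` and the `x`-line: a closed point of `Spec O` and a
closed point of the `x`-line over its residue field. -/
structure SurfacePt (O : Type) [CommRing O] : Type where
  place : MaximalSpectrum O
  point : ClosedPt (Res place)

variable (k) in
/-- The degree of a closed point over `k`. -/
noncomputable def SurfacePt.deg (z : SurfacePt O) : ℕ :=
  Module.finrank k (Res z.place) * ptDegree z.point

/-- The finite `p`-group `G` acts on the ring `O ⊇ k[t]` faithfully and with the ring of invariants `k[t]`,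
and the inertia groups are trivial at the points where some polynomial `R(t) ≠ 0` is not zero: `Spec O` is a
Galois covering of the `t`-line with the group `G`. -/
structure IsPCovering (k : Type) [Field k] (p : ℕ) (G O : Type) [Group G] [Finite G] [CommRing O]
    [Algebra k[X] O] [MulSemiringAction G O] : Prop where
  galois : IsGaloisGroup G k[X] O
  injective : Function.Injective (algebraMap k[X] O)
  pGroup : ∃ m : ℕ, Nat.card G = p ^ m
  generic : ∃ R : k[X], R ≠ 0 ∧ ∀ 𝔪 : MaximalSpectrum O, algebraMap k[X] O R ∉ 𝔪.asIdeal →
    𝔪.asIdeal.inertia G = ⊥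

/-- The places of the `t`-line that are ramified in `Spec O`: there is a point of `Spec O` above the
place with a nontrivial inertia group. -/
def ramified (k : Type) [Field k] (G O : Type) [Group G] [Finite G] [CommRing O]
    [Algebra k[X] O] [MulSemiringAction G O] : Set (ClosedPt k) :=
  {P | ∃ 𝔪 : MaximalSpectrum O, algebraMap k[X] O P.1 ∈ 𝔪.asIdeal ∧ 𝔪.asIdeal.inertia G ≠ ⊥}

end points

section defs

variable {k : Type} [Field k]

/-- The `L`-function in the variable `T = (#k) ^ (-s)` of the `χ`-part of the surface `y ^ n = f(t, x)`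
over the covering `Spec O` of the `t`-line: the product over the closed points `z` of `Spec O × 𝔸¹` of
the factors `1 - χ(N f(z)) T ^ (deg z)`, where `N f(z)` is the norm to `k` of the value of `f` at `z`, and
`χ(0) = 0`. -/
noncomputable def Lfun (f : k[X][X]) (O : Type) [CommRing O] [Algebra k[X] O]
    (χ : MulChar k ℂ) : PowerSeries ℂ :=
  eulerProduct (fun z : SurfacePt O => z.deg k)
    (fun z => 1 - PowerSeries.C (χ (normValue (f.map (value z.place)) z.point)) *
      PowerSeries.X ^ z.deg k)

/-- The degree in `t` of a polynomial in `t` and `x`. -/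
noncomputable def tDegree {K : Type} [Field K] (g : K[X][X]) : ℕ :=
  g.support.sup fun e => (g.coeff e).natDegree

/-- The polynomial over the larger field `K`. -/
noncomputable def base (K : Type) [Field K] [Algebra k K] (g : k[X][X]) : K[X][X] :=
  g.map (mapRingHom (algebraMap k K))

end defs

section forms

variable {K : Type} [Field K]

/-- The value of `g(t, x)` at `t = T`, `x = Y`, Laurent series in `z`. -/
noncomputable def valueAt (T Y : LaurentSeries K) : K[X][X] →+* LaurentSeries K :=
  eval₂RingHom (eval₂RingHom (HahnSeries.C : K →+* LaurentSeries K) T) Y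

/-- The coefficients of index less than `N` are zero. -/
def OrderGE (N : ℤ) (h : LaurentSeries K) : Prop := ∀ m < N, h.coeff m = 0

/-- The differential form `u dt / (∂g/∂x)` on the curve `g = 0` at the branch `t = T(z)`, `x = Y(z)`,
divided by `dz`. -/
noncomputable def formAt (g u : K[X][X]) (T Y : LaurentSeries K) : LaurentSeries K :=
  valueAt T Y u * LaurentSeries.derivative K T / valueAt T Y (derivative g)

/-- `D r < n` for the remainders `r` of all `p ^ i j` modulo `n`. -/
def Small (p n j : ℕ) (D : ℤ) : Prop := ∀ i : ℕ, D * ((p ^ i * j % n : ℕ) : ℤ) < n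

/-- The degree of `f` with the weight `α` of `t` and the weight `β` of `x` is at most `D`. -/
def WeightLE (f : K[X][X]) (α β D : ℤ) : Prop :=
  ∀ e i : ℕ, (f.coeff e).coeff i ≠ 0 → α * i + β * e ≤ D

/-- The differential form `u dt / (∂g/∂x)` on the component `g = 0` of the curve `f = 0`: the degrees of `u`
in `x` and in `t` are less than those of `g`; at the branches `(T, Y)` of `g = 0` at the finite points the
form has no poles; at the branches at infinity it has at most a simple pole, if the poles of `T` and `Y`
are of orders at most `α` and `β` and the degree of `f` with these weights is small. -/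
def IsLogForm (p n j : ℕ) (f g u : K[X][X]) : Prop :=
  (∀ e i : ℕ, (u.coeff e).coeff i ≠ 0 → e < g.natDegree ∧ i < tDegree g) ∧
  ∀ T Y : LaurentSeries K, valueAt T Y g = 0 →
    (OrderGE 0 T → OrderGE 0 Y → OrderGE 0 (formAt g u T Y)) ∧
    (∀ α β D : ℤ, Small p n j D → OrderGE (-α) T → OrderGE (-β) Y → WeightLE f α β D →
      OrderGE (-1) (formAt g u T Y))

/-- The component `g = 0` of `f = 0` is a vertical line, or it is parametrised by polynomials `t = A(z)`,
`x = B(z)` and the degree of `f` with the weights `deg A`, `deg B` is small. -/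
def IsPolynomialCurve (p n j : ℕ) (f g : K[X][X]) : Prop :=
  g.natDegree = 0 ∨ (derivative g ≠ 0 ∧ ∃ (A B : K[X]) (D : ℤ), derivative A ≠ 0 ∧
    (∀ u : K[X][X], eval₂ (eval₂RingHom C A) B u = 0 ↔ g ∣ u) ∧ Small p n j D ∧
      WeightLE f A.natDegree B.natDegree D)

theorem lo_form (g u : K[X][X]) (T Y : LaurentSeries K) (N : ℤ) :
    Pool.Agent.K4H5.BD.lo (N + 1) (Pool.Agent.K4H5.BD.form g u T Y) ↔
      OrderGE N (formAt g u T Y) := by
  have h1 : Pool.Agent.K4H5.BD.form g u T Y =
      HahnSeries.single (1 : ℤ) (1 : K) * formAt g u T Y := by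
    have h2 : Pool.Agent.K4H5.BD.th T =
        HahnSeries.single (1 : ℤ) (1 : K) * LaurentSeries.derivative K T := by
      ext m
      rw [HahnSeries.coeff_single_mul, one_mul, Pool.Agent.K4H5.BD.coeff_th,
        LaurentSeries.derivative_apply, LaurentSeries.hasseDeriv_coeff, Nat.cast_one,
        sub_add_cancel, Ring.choose_one_right, zsmul_eq_mul]
    unfold Pool.Agent.K4H5.BD.form formAt
    rw [h2]
    show valueAt T Y u * _ / valueAt T Y (derivative g) = _
    ring
  rw [h1]
  constructor
  · intro h m hm
    have := h (m + 1) (by omega)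
    rwa [HahnSeries.coeff_single_mul, one_mul, add_sub_cancel_right] at this
  · intro h m hm
    rw [HahnSeries.coeff_single_mul, one_mul]
    exact h (m - 1) (by omega)

theorem isLogForm_iff (p n j : ℕ) (f g u : K[X][X]) : IsLogForm p n j f g u ↔
    u ∈ Pool.Agent.K4H5.BD.Adj (Pool.Agent.K4H5.BD.Sml p n j) f g := by
  rw [Pool.Agent.K4H5.BD.mem_Adj]
  unfold IsLogForm
  refine and_congr Iff.rfl (forall_congr' fun T => forall_congr' fun Y => ?_)
  rw [← lo_form, ← lo_form]
  exact Iff.rfl

/-- The space of the forms on the component `g = 0` of the curve `f = 0`. -/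
noncomputable def logForms (p n j : ℕ) (f g : K[X][X]) : Submodule K K[X][X] where
  carrier := {u | IsLogForm p n j f g u}
  add_mem' := by
    intro u v hu hv
    exact (isLogForm_iff p n j f g _).2
      (add_mem ((isLogForm_iff p n j f g u).1 hu) ((isLogForm_iff p n j f g v).1 hv))
  zero_mem' := (isLogForm_iff p n j f g _).2 (zero_mem _)
  smul_mem' := by
    intro c u hu
    exact (isLogForm_iff p n j f g _).2
      (Submodule.smul_mem _ c ((isLogForm_iff p n j f g u).1 hu))

theorem logForms_eq (p n j : ℕ) (f g : K[X][X]) : logForms p n j f g =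
    Pool.Agent.K4H5.BD.Adj (Pool.Agent.K4H5.BD.Sml p n j) f g :=
  Submodule.ext fun u => isLogForm_iff p n j f g u

theorem logForms_bot [IsAlgClosed K] (p n j : ℕ) (f g : K[X][X]) (h : IsPolynomialCurve p n j f g) :
    logForms p n j f g = ⊥ := by
  rcases h with h | ⟨h1, A, B, D, h2, h3, h4, h5⟩
  · rw [eq_bot_iff]
    intro u hu
    rw [Submodule.mem_bot]
    ext e i
    rw [coeff_zero, coeff_zero]
    by_contra hne
    have := (hu.1 e i hne).1
    omega
  · rw [logForms_eq]
    exact Pool.Agent.K4H5.BD.Adj_line _ h1 h2 ((h3 g).2 dvd_rfl) (fun u hu => (h3 u).1 hu) h4 h5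

end forms

section defs

variable {k : Type} [Field k]

/-- The number of the linearly independent forms on the components `g l = 0` of the curve `f = 0`, over the
algebraic closure of `k`. -/
noncomputable def branchForms (p n j : ℕ) {κ : Type} [Fintype κ] (f : k[X][X]) (g : κ → k[X][X]) : ℕ :=
  ∑ l, Module.finrank (AlgebraicClosure k)
    (logForms p n j (base (AlgebraicClosure k) f) (base (AlgebraicClosure k) (g l)))

theorem Lfun_eq (f : k[X][X]) (O : Type) [CommRing O] [Algebra k[X] O] (χ : MulChar k ℂ) :
    Lfun f O χ = Pool.Agent.K4H5.BC.LB O χ f := by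
  unfold Lfun Pool.Agent.K4H5.BC.LB eulerProduct Pool.Agent.W343.BSD.eulerProd
  ext n
  rw [PowerSeries.coeff_mk, PowerSeries.coeff_mk]
  congr 1
  let E : (Σ 𝔪 : MaximalSpectrum O, Pool.Agent.W313.Hyp.MI (Pool.Agent.Y709.Lay.RO k 𝔪)) ≃
      SurfacePt O :=
    { toFun := fun z => ⟨z.1, z.2⟩
      invFun := fun z => ⟨z.place, z.point⟩
      left_inv := fun _ => rfl
      right_inv := fun _ => rfl }
  exact (finprod_comp_equiv E
    (f := fun z : SurfacePt O => ∏ᶠ (_ : z.deg k ≤ n),
      (1 - PowerSeries.C (χ (normValue (f.map (value z.place)) z.point)) *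
        PowerSeries.X ^ z.deg k : PowerSeries ℂ))).symm

theorem rescale_coe (u : ℂ) (P : ℂ[X]) :
    PowerSeries.rescale u (P : PowerSeries ℂ) = ((P.comp (C u * X) : ℂ[X]) : PowerSeries ℂ) := by
  ext i
  rw [PowerSeries.coeff_rescale, Polynomial.coeff_coe, Polynomial.coeff_coe, comp_C_mul_X_coeff,
    mul_comm]

end defs

/-- **Ranks of superelliptic Jacobians over all extensions of `k(t)` of `p`-power degree, and the differential
forms on the branch curve.**

Let `k` be a finite field of characteristic `p`, `n` a divisor of `#k - 1`, `f(t, x)` ANY polynomial over `k` of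
degree at most `a` in `x`, and `f = ∏ g_l ^ E_l`, for example the factorisation into irreducible polynomials.
Let `j` be prime to `n`, `0 < j < n`, such that `a r < n` and `deg_t(f) r < n` for the remainders `r` of all
`p ^ i j` modulo `n`. If `n` divides `p - 1` the conditions are `a j < n` and `deg_t(f) j < n`, and `j = 1` has
them for all `n > a, deg_t(f)`. Let `A` be the part of the Jacobian of `y ^ n = f(t, x)` over
`k(t)` belonging to the characters of exact order `n` of the group of roots of unity (for a prime number `n`
it is the whole Jacobian); for `c` in `k*` let `A_c` be that of the twist `y ^ n = c f(t, x)`. For a Galois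
extension `L` of `k(t)` with the group `G` of order a power of `p` let `O` be the ring of the elements integral
over `k[t]`; `L` may contain a larger field of constants, and the wild ramification is arbitrary.

Theorem. Let `C = branchForms` be the sum over `l` of the dimension of the space of the differential forms
`u dt / (∂g_l/∂x)` on the curve `g_l = 0` over the algebraic closure of `k`, `u` of smaller degree in `t` and in
`x` than `g_l`, which have no poles at the branches of the curve at the finite points, and at most simple
poles at the branches `t = T(z)`, `x = Y(z)` at infinity, the latter if `D r < n` for the degree `D` of `f` with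
the weights `-ord T`, `-ord Y` and for all `r`.
* `C = 0` if every curve `g_l = 0` is a vertical line or is parametrised by polynomials `t = A(z)`,
  `x = B(z)`, and `D r < n` for the degree `D` of `f` with the weights `deg A`, `deg B` and for all `r`.
* There are multiplicities `μ(ζ)`, for `ζ` a root of unity of order prime to `p`, with the sum over
  all `ζ` at most `C`, such that for ALL `L`, all `c` in `k*` and all `ζ`: if the `L`-function of the `χ`-part
  of the surface `y ^ n = c f(t, x)` over `L` is the product of the factors `1 - #k z T`, for the roots of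
  unity `z` in the list `s`, and a polynomial, then the number of the `z` in the list which are equal to
  `χ(c) ζ` up to a root of unity of `p`-power order is at most
  `[L : k(t)] (μ(ζ) + (a - 1) ∑ p ^ (v_p(deg P)))`, the sum over the places `P ≠ ∞` of `k(t)` that
  are ramified in `L`; and the number of all the `z` in the list is at most
  `[L : k(t)] (C + (a - 1) ∑ deg P)`.

Meaning. The `L`-function is a polynomial by Grothendieck if `A` has no constant part over `L` and the
algebraic closure of `k`. The `L`-function of `A_c` over `L` is the product of those of the `φ(n)` characters of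
exact order `n`, which are conjugate and so have the same order at `T = 1 / #k`, up to finitely many local
factors; by Deligne's theorem on the weights these have no poles at `|T| = 1 / #k`, so that the order of
`L(A_c / L, s)` at `s = 1`, and the rank of `A_c(L)`, are at most `φ(n)` times the number of the `z = 1`, for which
the first bound is one; the rank over the composite of `L` and the algebraic closure of `k` is at most `φ(n)`
times the second bound. If no place but `∞` is ramified, the bounds are `[L : k(t)] μ(ζ)` and `[L : k(t)] C`. The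
forms counted by `C` are logarithmic forms on the normalisations of the components of the branch curve,
with poles at infinity only: if `D r < n` holds at all branches at infinity (`n > D` if `n` divides
`p - 1` and `j = 1`), there are at most (genus + number of the points at infinity - 1) of them on each
component over the algebraic closure, whatever the singularities and the intersections. So if all components are parametrised by polynomials, `L(A_c / L, s)` does not vanish at `s = 1`
for ALL `c` and ALL Galois extensions `L` of `p`-power degree of `k(t)` unramified outside of `∞`, the maximal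
one of which has a Galois group that is not finitely generated. By Tate, Milne and Kato–Trihan `A_c(L)` and
the Tate–Shafarevich group are finite then and the formula of Birch and Swinnerton-Dyer holds. -/
theorem result (k : Type) [Field k] [Finite k] (p : ℕ) [Fact p.Prime] [CharP k p] (n : ℕ)
    (hn : n ∣ Nat.card k - 1) (κ : Type) [Fintype κ] (g : κ → k[X][X]) (E : κ → ℕ) (f : k[X][X])
    (hfg : f = ∏ l, g l ^ E l) (a : ℕ) (ha : 2 ≤ a) (hf : f.natDegree ≤ a) (j : ℕ) (hj0 : 0 < j)
    (hjn : j < n) (hj : j.Coprime n) (hij : ∀ i : ℕ, a * ((p ^ i * j) % n) < n)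
    (hit : ∀ i : ℕ, tDegree f * ((p ^ i * j) % n) < n) (χ : MulChar k ℂ) (hχ : orderOf χ = n) :
    ((∀ l, IsPolynomialCurve p n j (base (AlgebraicClosure k) f) (base (AlgebraicClosure k) (g l))) →
      branchForms p n j f g = 0) ∧
    ∃ μ : ℂ → ℕ, (∀ Z : Finset ℂ, ∑ ζ ∈ Z, μ ζ ≤ branchForms p n j f g) ∧
      ∀ (G O : Type) [Group G] [Finite G] [CommRing O] [Algebra k[X] O] [MulSemiringAction G O],
        IsPCovering k p G O → ∀ (c : kˣ) (s : Multiset ℂ) (H : ℂ[X]),
        (∀ z ∈ s, ∃ e : ℕ, 0 < e ∧ z ^ e = 1) →
        Lfun (C (C (c : k)) * f) O χ =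
          (((s.map fun z => 1 - C ((Nat.card k : ℂ) * z) * X).prod * H : ℂ[X]) : PowerSeries ℂ) →
        (∀ (ζ : ℂ) (e : ℕ), 0 < e → ¬ p ∣ e → ζ ^ e = 1 →
          ∀ t ≤ s, (∀ z ∈ t, ∃ i : ℕ, z ^ p ^ i = (χ c * ζ) ^ p ^ i) →
            Multiset.card t ≤ Nat.card G *
              (μ ζ + (a - 1) * ∑ᶠ P ∈ ramified k G O, p ^ padicValNat p (ptDegree P))) ∧
        Multiset.card s ≤ Nat.card G *
          (branchForms p n j f g + (a - 1) * ∑ᶠ P ∈ ramified k G O, ptDegree P) := by
  classical
  have hFk : Fintype k := Fintype.ofFinite k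
  rw [Nat.card_eq_fintype_card] at hn
  have hbf : ∑ l, Module.finrank (AlgebraicClosure k) (Pool.Agent.K4H5.BD.Adj
      (Pool.Agent.K4H5.BD.Sml p n j)
      (Pool.Agent.K4H5.BD.tw2 (algebraMap k (AlgebraicClosure k)) f)
      (Pool.Agent.K4H5.BD.tw2 (algebraMap k (AlgebraicClosure k)) (g l))) =
      branchForms p n j f g := by
    unfold branchForms
    refine Finset.sum_congr rfl fun l _ => ?_
    rw [logForms_eq]
    rfl
  obtain ⟨μ, hμ, hmain⟩ := Pool.Agent.K4H5.BD.main_adj k p hn ha hj0 hj hjn hij χ hχ g E f hfg hf hit
  rw [hbf] at hμ hmain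
  refine ⟨?_, μ, hμ, ?_⟩
  · intro h
    unfold branchForms
    refine Finset.sum_eq_zero fun l _ => ?_
    rw [logForms_bot _ _ _ _ _ (h l), finrank_bot]
  intro G O _ _ _ _ _ hO c s H hs hL
  have i6 := hO.galois
  have i7 : FaithfulSMul k[X] O := (faithfulSMul_iff_algebraMap_injective _ _).2 hO.injective
  obtain ⟨g', hg⟩ := hO.pGroup
  obtain ⟨B, hB, hgen⟩ := hO.generic
  have hun : ∀ 𝔪 : MaximalSpectrum O, Pool.Agent.Y709.Lay.vO k 𝔪 B ≠ 0 →
      𝔪.asIdeal.inertia G = ⊥ := by
    intro 𝔪 h𝔪
    apply hgen
    intro h0
    exact h𝔪 ((Pool.Agent.Y709.Lay.vO_eq_zero k).2 h0)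
  -- the twist
  have hχc : χ (c : k) ^ n = 1 := by
    rw [← MulChar.pow_apply_coe, ← hχ, pow_orderOf_eq_one, MulChar.one_apply_coe]
  have hn0 : 0 < n := by omega
  have hχc0 : χ (c : k) ≠ 0 := by
    intro h
    rw [h, zero_pow hn0.ne'] at hχc
    exact zero_ne_one hχc
  set u : ℂ := (χ (c : k))⁻¹ with hu
  have hun1 : u ^ n = 1 := by rw [hu, inv_pow, hχc, inv_one]
  set s' : Multiset ℂ := s.map fun z => z * u with hs'
  have hLf : Pool.Agent.K4H5.BC.LB O χ f = (((s'.map fun z =>
      1 - C ((Fintype.card k : ℂ) * z) * X).prod * H.comp (C u * X) : ℂ[X]) :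
        PowerSeries ℂ) := by
    rw [Lfun_eq, Pool.Agent.K4H5.BC.LB_C_mul (O := O) G, Nat.card_eq_fintype_card] at hL
    have h1 := congrArg (PowerSeries.rescale u) hL
    rw [PowerSeries.rescale_rescale, hu, mul_inv_cancel₀ hχc0, PowerSeries.rescale_one,
      RingHom.id_apply, ← hu, rescale_coe, mul_comp] at h1
    rw [h1]
    congr 2
    rw [← coe_compRingHom_apply, map_multiset_prod, hs', Multiset.map_map, Multiset.map_map]
    congr 1
    refine Multiset.map_congr rfl fun z _ => ?_
    simp only [Function.comp, coe_compRingHom_apply, sub_comp, one_comp, mul_comp, C_comp, X_comp]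
    rw [C_mul, C_mul, C_mul]
    ring
  have hs'1 : ∀ z ∈ s', ∃ e : ℕ, 0 < e ∧ z ^ e = 1 := by
    intro z hz
    rw [hs', Multiset.mem_map] at hz
    obtain ⟨w, hw, rfl⟩ := hz
    obtain ⟨e, he, h1⟩ := hs w hw
    refine ⟨e * n, Nat.mul_pos he hn0, ?_⟩
    rw [mul_pow, pow_mul, h1, one_pow, mul_comm e n, pow_mul, hun1, one_pow, mul_one]
  obtain ⟨h1, h2⟩ := hmain G O g' hg B hB hun s' hs'1 (H.comp (C u * X)) hLf
  -- the ramified places
  have hsub : ramified k G O ⊆ (Pool.Agent.K4H5.BC.divs B : Finset (ClosedPt k)) := by
    rintro P ⟨𝔪, hP, hI⟩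
    rw [Finset.mem_coe, Pool.Agent.K4H5.BC.mem_divs hB]
    have hfd := Pool.Agent.Y709.Lay.finiteDim_RO (k := k) G 𝔪
    have h3 : Pool.Agent.Y709.Lay.vO k 𝔪 B = 0 := by
      by_contra h
      exact hI (hun 𝔪 h)
    have h4 : Pool.Agent.Y709.Lay.vO k 𝔪 P.1 = 0 := (Pool.Agent.Y709.Lay.vO_eq_zero k).2 hP
    rw [Pool.Agent.Y709.Lay.vO_zero_iff] at h3 h4
    have h5 := (Pool.Agent.Y709.Lay.pt (k := k) 𝔪).2
    have h6 : (Pool.Agent.Y709.Lay.pt (k := k) 𝔪).1 = P.1 :=
      eq_of_monic_of_associated h5.1 P.2.1 (h5.2.associated_of_dvd P.2.2 h4)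
    rw [← h6]
    exact h3
  have hfin : (ramified k G O).Finite := (Finset.finite_toSet _).subset hsub
  have hsum : ∀ w : ClosedPt k → ℕ, ∑ P ∈ Pool.Agent.K4H5.BC.divs B,
      Pool.Agent.K4H5.BC.defect O G P * ((a - 1) * w P) ≤
        Nat.card G * ((a - 1) * ∑ᶠ P ∈ ramified k G O, w P) := by
    intro w
    rw [finsum_mem_eq_finite_toFinset_sum w hfin, Finset.mul_sum, Finset.mul_sum]
    have h3 : ∑ P ∈ Pool.Agent.K4H5.BC.divs B,
        Pool.Agent.K4H5.BC.defect O G P * ((a - 1) * w P) =
        ∑ P ∈ hfin.toFinset, Pool.Agent.K4H5.BC.defect O G P * ((a - 1) * w P) := by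
      symm
      refine Finset.sum_subset ?_ ?_
      · intro P hP
        rw [Set.Finite.mem_toFinset] at hP
        exact Finset.mem_coe.1 (hsub hP)
      · intro P _ hP
        have h4 : Pool.Agent.K4H5.BC.defect O G P = 0 := by
          by_contra h
          obtain ⟨𝔪, h𝔪, hI⟩ := Pool.Agent.K4H5.BC.defect_ne (O := O) G h
          apply hP
          rw [Set.Finite.mem_toFinset]
          refine ⟨𝔪, ?_, hI⟩
          have hfd := Pool.Agent.Y709.Lay.finiteDim_RO (k := k) G 𝔪
          have h5 : (Pool.Agent.Y709.Lay.pt (k := k) 𝔪).1 = P.1 := h𝔪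
          rw [← Pool.Agent.Y709.Lay.vO_eq_zero k, Pool.Agent.Y709.Lay.vO_zero_iff, h5]
        rw [h4, zero_mul]
    rw [h3]
    refine Finset.sum_le_sum fun P _ => Nat.mul_le_mul_right _ ?_
    exact Nat.sub_le _ _
  constructor
  · intro ζ e he hpe hζ t hts ht
    have h3 := h1 ζ e he hpe hζ (t.map fun z => z * u) (Multiset.map_le_map hts) (by
      intro z hz
      rw [Multiset.mem_map] at hz
      obtain ⟨w, hw, rfl⟩ := hz
      obtain ⟨i, hi⟩ := ht w hw
      refine ⟨i, ?_⟩
      rw [mul_pow, hi, ← mul_pow, hu]
      congr 1
      field_simp)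
    rw [Multiset.card_map] at h3
    refine h3.trans ?_
    rw [mul_add]
    exact Nat.add_le_add_left (hsum fun P => p ^ padicValNat p (ptDegree P)) _
  · rw [hs', Multiset.card_map] at h2
    refine h2.trans ?_
    rw [Nat.mul_add (Nat.card G) (branchForms p n j f g)]
    exact Nat.add_le_add_left (hsum fun P => ptDegree P) _

end Pool.Agent.Results.MP_60d5ce_nt.PExtensionsBranchForms
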