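import Pool.Agent.K4H5.KD.Main
import Pool.Agent.K4H5.KD.Phi
import Pool.Agent.K4H5.KD.Conj
import Pool.Agent.K4H5.BD.Line

/-!
The Jacobians of superelliptic curves `y ^ n = f(t, x)` over all Galois extensions `L` of `k(t)` of degree a
power of the characteristic `p`: an exact formula, of the type of the formula of Kida and of the formula of
Riemann and Hurwitz, for the number of the zeros of the `L`-function over `L` with a given residue at a place
above `p`, and an exact formula for the residue of the value `L(A / L, 1)`.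
-/

set_option autoImplicit false

open Polynomial

namespace Pool.Agent.Results.MP_60d5ce_nt.PExtensionsKidaFormula

section generic

/-- The closed points of the affine line over the field `F`: monic irreducible polynomials. -/
abbrev ClosedPt (F : Type) [Field F] : Type := {P : F[X] // P.Monic ∧ Irreducible P}

variable {F : Type} [Field F]

/-- The degree of a closed point of the affine line over `F`. -/
noncomputable def ptDegree (P : ClosedPt F) : ℕ := P.1.natDegree

/-- The norm to `k` of the value of the polynomial `g` over `F` at the closed point `Q` of the affine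
line over the extension `F` of `k`. -/
noncomputable def normValue {k : Type} [Field k] [Algebra k F] (g : F[X]) (Q : ClosedPt F) : k :=
  Algebra.norm k (AdjoinRoot.mk Q.1 g)

/-- The Euler product: its coefficient of index `n` is that of the product of the factors of degree
at most `n`. -/
noncomputable def eulerProduct {ι : Type} (d : ι → ℕ) (f : ι → PowerSeries ℂ) : PowerSeries ℂ :=
  PowerSeries.mk fun n => PowerSeries.coeff n (∏ᶠ (i : ι) (_ : d i ≤ n), f i)

end generic

section points

variable {k : Type} [Field k] {O : Type} [CommRing O] [Algebra k[X] O]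

/-- The residue field of a closed point of `Spec O`, for an algebra `O` over `k[t]`. -/
def Res (𝔪 : MaximalSpectrum O) : Type := O ⧸ 𝔪.asIdeal

attribute [local instance] MaximalSpectrum.isMaximal in
noncomputable instance resField (𝔪 : MaximalSpectrum O) : Field (Res 𝔪) :=
  Ideal.Quotient.field 𝔪.asIdeal

/-- The value at `𝔪` of a polynomial in `t`. -/
noncomputable def value (𝔪 : MaximalSpectrum O) : k[X] →+* Res 𝔪 :=
  (Ideal.Quotient.mk 𝔪.asIdeal).comp (algebraMap k[X] O)

noncomputable instance resAlgebra (𝔪 : MaximalSpectrum O) : Algebra k (Res 𝔪) :=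
  ((value 𝔪).comp C).toAlgebra

/-- The closed points of the product of `Spec O` and the `x`-line: a closed point of `Spec O` and a
closed point of the `x`-line over its residue field. -/
structure SurfacePt (O : Type) [CommRing O] : Type where
  place : MaximalSpectrum O
  point : ClosedPt (Res place)

variable (k) in
/-- The degree of a closed point over `k`. -/
noncomputable def SurfacePt.deg (z : SurfacePt O) : ℕ :=
  Module.finrank k (Res z.place) * ptDegree z.point

/-- The finite `p`-group `G` acts on the ring `O ⊇ k[t]` faithfully and with the ring of invariants `k[t]`,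
and the inertia groups are trivial at the points where some polynomial `R(t) ≠ 0` is not zero: `Spec O` is a
Galois covering of the `t`-line with the group `G`. -/
structure IsPCovering (k : Type) [Field k] (p : ℕ) (G O : Type) [Group G] [Finite G] [CommRing O]
    [Algebra k[X] O] [MulSemiringAction G O] : Prop where
  galois : IsGaloisGroup G k[X] O
  injective : Function.Injective (algebraMap k[X] O)
  pGroup : ∃ m : ℕ, Nat.card G = p ^ m
  generic : ∃ R : k[X], R ≠ 0 ∧ ∀ 𝔪 : MaximalSpectrum O, algebraMap k[X] O R ∉ 𝔪.asIdeal →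
    𝔪.asIdeal.inertia G = ⊥

/-- The places of the `t`-line that are ramified in `Spec O`: there is a point of `Spec O` above the
place with a nontrivial inertia group. -/
def ramified (k : Type) [Field k] (G O : Type) [Group G] [Finite G] [CommRing O]
    [Algebra k[X] O] [MulSemiringAction G O] : Set (ClosedPt k) :=
  {P | ∃ 𝔪 : MaximalSpectrum O, algebraMap k[X] O P.1 ∈ 𝔪.asIdeal ∧ 𝔪.asIdeal.inertia G ≠ ⊥}

end points

section defs

variable {k : Type} [Field k]

/-- The `L`-function in the variable `T = (#k) ^ (-s)` of the `χ`-part of the surface `y ^ n = f(t, x)`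
over the covering `Spec O` of the `t`-line: the product over the closed points `z` of `Spec O × 𝔸¹` of
the factors `1 - χ(N f(z)) T ^ (deg z)`, where `N f(z)` is the norm to `k` of the value of `f` at `z`, and
`χ(0) = 0`. -/
noncomputable def Lfun (f : k[X][X]) (O : Type) [CommRing O] [Algebra k[X] O]
    (χ : MulChar k ℂ) : PowerSeries ℂ :=
  eulerProduct (fun z : SurfacePt O => z.deg k)
    (fun z => 1 - PowerSeries.C (χ (normValue (f.map (value z.place)) z.point)) *
      PowerSeries.X ^ z.deg k)

/-- The degree in `t` of a polynomial in `t` and `x`. -/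
noncomputable def tDegree {K : Type} [Field K] (g : K[X][X]) : ℕ :=
  g.support.sup fun e => (g.coeff e).natDegree

/-- The polynomial over the larger field `K`. -/
noncomputable def base (K : Type) [Field K] [Algebra k K] (g : k[X][X]) : K[X][X] :=
  g.map (mapRingHom (algebraMap k K))

end defs

section forms

variable {K : Type} [Field K]

/-- The value of `g(t, x)` at `t = T`, `x = Y`, Laurent series in `z`. -/
noncomputable def valueAt (T Y : LaurentSeries K) : K[X][X] →+* LaurentSeries K :=
  eval₂RingHom (eval₂RingHom (HahnSeries.C : K →+* LaurentSeries K) T) Y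

/-- The coefficients of index less than `N` are zero. -/
def OrderGE (N : ℤ) (h : LaurentSeries K) : Prop := ∀ m < N, h.coeff m = 0

/-- The differential form `u dt / (∂g/∂x)` on the curve `g = 0` at the branch `t = T(z)`, `x = Y(z)`,
divided by `dz`. -/
noncomputable def formAt (g u : K[X][X]) (T Y : LaurentSeries K) : LaurentSeries K :=
  valueAt T Y u * LaurentSeries.derivative K T / valueAt T Y (derivative g)

/-- `D r < n` for the remainders `r` of all `p ^ i j` modulo `n`. -/
def Small (p n j : ℕ) (D : ℤ) : Prop := ∀ i : ℕ, D * ((p ^ i * j % n : ℕ) : ℤ) < n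

/-- The degree of `f` with the weight `α` of `t` and the weight `β` of `x` is at most `D`. -/
def WeightLE (f : K[X][X]) (α β D : ℤ) : Prop :=
  ∀ e i : ℕ, (f.coeff e).coeff i ≠ 0 → α * i + β * e ≤ D

/-- The differential form `u dt / (∂g/∂x)` on the component `g = 0` of the curve `f = 0`: the degrees of `u`
in `x` and in `t` are less than those of `g`; at the branches `(T, Y)` of `g = 0` at the finite points the
form has no poles; at the branches at infinity it has at most a simple pole, if the poles of `T` and `Y`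
are of orders at most `α` and `β` and the degree of `f` with these weights is small. -/
def IsLogForm (p n j : ℕ) (f g u : K[X][X]) : Prop :=
  (∀ e i : ℕ, (u.coeff e).coeff i ≠ 0 → e < g.natDegree ∧ i < tDegree g) ∧
  ∀ T Y : LaurentSeries K, valueAt T Y g = 0 →
    (OrderGE 0 T → OrderGE 0 Y → OrderGE 0 (formAt g u T Y)) ∧
    (∀ α β D : ℤ, Small p n j D → OrderGE (-α) T → OrderGE (-β) Y → WeightLE f α β D →
      OrderGE (-1) (formAt g u T Y))

/-- The component `g = 0` of `f = 0` is a vertical line, or it is parametrised by polynomials `t = A(z)`,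
`x = B(z)` and the degree of `f` with the weights `deg A`, `deg B` is small. -/
def IsPolynomialCurve (p n j : ℕ) (f g : K[X][X]) : Prop :=
  g.natDegree = 0 ∨ (derivative g ≠ 0 ∧ ∃ (A B : K[X]) (D : ℤ), derivative A ≠ 0 ∧
    (∀ u : K[X][X], eval₂ (eval₂RingHom C A) B u = 0 ↔ g ∣ u) ∧ Small p n j D ∧
      WeightLE f A.natDegree B.natDegree D)

theorem lo_form (g u : K[X][X]) (T Y : LaurentSeries K) (N : ℤ) :
    Pool.Agent.K4H5.BD.lo (N + 1) (Pool.Agent.K4H5.BD.form g u T Y) ↔
      OrderGE N (formAt g u T Y) := by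
  have h1 : Pool.Agent.K4H5.BD.form g u T Y =
      HahnSeries.single (1 : ℤ) (1 : K) * formAt g u T Y := by
    have h2 : Pool.Agent.K4H5.BD.th T =
        HahnSeries.single (1 : ℤ) (1 : K) * LaurentSeries.derivative K T := by
      ext m
      rw [HahnSeries.coeff_single_mul, one_mul, Pool.Agent.K4H5.BD.coeff_th,
        LaurentSeries.derivative_apply, LaurentSeries.hasseDeriv_coeff, Nat.cast_one,
        sub_add_cancel, Ring.choose_one_right, zsmul_eq_mul]
    unfold Pool.Agent.K4H5.BD.form formAt
    rw [h2]
    show valueAt T Y u * _ / valueAt T Y (derivative g) = _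
    ring
  rw [h1]
  constructor
  · intro h m hm
    have := h (m + 1) (by omega)
    rwa [HahnSeries.coeff_single_mul, one_mul, add_sub_cancel_right] at this
  · intro h m hm
    rw [HahnSeries.coeff_single_mul, one_mul]
    exact h (m - 1) (by omega)

theorem isLogForm_iff (p n j : ℕ) (f g u : K[X][X]) : IsLogForm p n j f g u ↔
    u ∈ Pool.Agent.K4H5.BD.Adj (Pool.Agent.K4H5.BD.Sml p n j) f g := by
  rw [Pool.Agent.K4H5.BD.mem_Adj]
  unfold IsLogForm
  refine and_congr Iff.rfl (forall_congr' fun T => forall_congr' fun Y => ?_)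
  rw [← lo_form, ← lo_form]
  exact Iff.rfl

/-- The space of the forms on the component `g = 0` of the curve `f = 0`. -/
noncomputable def logForms (p n j : ℕ) (f g : K[X][X]) : Submodule K K[X][X] where
  carrier := {u | IsLogForm p n j f g u}
  add_mem' := by
    intro u v hu hv
    exact (isLogForm_iff p n j f g _).2
      (add_mem ((isLogForm_iff p n j f g u).1 hu) ((isLogForm_iff p n j f g v).1 hv))
  zero_mem' := (isLogForm_iff p n j f g _).2 (zero_mem _)
  smul_mem' := by
    intro c u hu
    exact (isLogForm_iff p n j f g _).2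
      (Submodule.smul_mem _ c ((isLogForm_iff p n j f g u).1 hu))

theorem logForms_eq (p n j : ℕ) (f g : K[X][X]) : logForms p n j f g =
    Pool.Agent.K4H5.BD.Adj (Pool.Agent.K4H5.BD.Sml p n j) f g :=
  Submodule.ext fun u => isLogForm_iff p n j f g u

theorem logForms_bot [IsAlgClosed K] (p n j : ℕ) (f g : K[X][X]) (h : IsPolynomialCurve p n j f g) :
    logForms p n j f g = ⊥ := by
  rcases h with h | ⟨h1, A, B, D, h2, h3, h4, h5⟩
  · rw [eq_bot_iff]
    intro u hu
    rw [Submodule.mem_bot]
    ext e i
    rw [coeff_zero, coeff_zero]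
    by_contra hne
    have := (hu.1 e i hne).1
    omega
  · rw [logForms_eq]
    exact Pool.Agent.K4H5.BD.Adj_line _ h1 h2 ((h3 g).2 dvd_rfl) (fun u hu => (h3 u).1 hu) h4 h5

end forms

section defs

variable {k : Type} [Field k]

/-- The number of the linearly independent forms on the components `g l = 0` of the curve `f = 0`, over the
algebraic closure of `k`. -/
noncomputable def branchForms (p n j : ℕ) {κ : Type} [Fintype κ] (f : k[X][X]) (g : κ → k[X][X]) : ℕ :=
  ∑ l, Module.finrank (AlgebraicClosure k)
    (logForms p n j (base (AlgebraicClosure k) f) (base (AlgebraicClosure k) (g l)))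

theorem Lfun_eq (f : k[X][X]) (O : Type) [CommRing O] [Algebra k[X] O] (χ : MulChar k ℂ) :
    Lfun f O χ = Pool.Agent.K4H5.BC.LB O χ f := by
  unfold Lfun Pool.Agent.K4H5.BC.LB eulerProduct Pool.Agent.W343.BSD.eulerProd
  ext n
  rw [PowerSeries.coeff_mk, PowerSeries.coeff_mk]
  congr 1
  let E : (Σ 𝔪 : MaximalSpectrum O, Pool.Agent.W313.Hyp.MI (Pool.Agent.Y709.Lay.RO k 𝔪)) ≃
      SurfacePt O :=
    { toFun := fun z => ⟨z.1, z.2⟩
      invFun := fun z => ⟨z.place, z.point⟩
      left_inv := fun _ => rfl
      right_inv := fun _ => rfl }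
  exact (finprod_comp_equiv E
    (f := fun z : SurfacePt O => ∏ᶠ (_ : z.deg k ≤ n),
      (1 - PowerSeries.C (χ (normValue (f.map (value z.place)) z.point)) *
        PowerSeries.X ^ z.deg k : PowerSeries ℂ))).symm

end defs

section place

/-- The ring of all algebraic integers. -/
abbrev AlgInt : Type := integralClosure ℤ ℂ

variable {k : Type} [Field k]

/-- The homomorphism `φ` from the ring of all algebraic integers to the algebraic closure of `k` (a place of
the field of all algebraic numbers above `p`) for which the residue of `χ(u)` is `u ^ (j (#k - 1) / n)`. -/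
def IsPlace (n j : ℕ) (χ : MulChar k ℂ) (φ : AlgInt →+* AlgebraicClosure k) : Prop :=
  ∀ u : k, ∃ x : AlgInt, (x : ℂ) = χ u ∧
    φ x = algebraMap k (AlgebraicClosure k) u ^ (j * (Nat.card k - 1) / n)

/-- The residue at `φ` of the number `z` is `u`: `z` is a quotient `x / s` of algebraic integers with
`φ(s) ≠ 0` and `φ(x) = φ(s) u`. -/
def HasResidue (φ : AlgInt →+* AlgebraicClosure k) (z : ℂ) (u : AlgebraicClosure k) : Prop :=
  ∃ x s : AlgInt, φ s ≠ 0 ∧ (s : ℂ) * z = x ∧ φ x = φ s * u

/-- The number `z` is a unit at `φ`: it has a residue that is not `0` (in particular `z` is not `0`). -/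
def UnitAt (φ : AlgInt →+* AlgebraicClosure k) (z : ℂ) : Prop :=
  ∃ u : AlgebraicClosure k, u ≠ 0 ∧ HasResidue φ z u

theorem residue_unique {φ : AlgInt →+* AlgebraicClosure k} {z : ℂ} {u v : AlgebraicClosure k}
    (hu : HasResidue φ z u) (hv : HasResidue φ z v) : u = v := by
  obtain ⟨x, s, hs, h1, h2⟩ := hu
  obtain ⟨x', s', hs', h1', h2'⟩ := hv
  have h3 : s' * x = s * x' := by
    apply Subtype.ext
    show (s' : ℂ) * x = s * x'
    rw [← h1, ← h1']
    ring
  have h4 := congrArg φ h3
  rw [map_mul, map_mul, h2, h2'] at h4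
  have h5 : φ s' * φ s * u = φ s' * φ s * v := by
    linear_combination h4
  exact mul_left_cancel₀ (mul_ne_zero hs' hs) h5

theorem unitAt_iff {φ : AlgInt →+* AlgebraicClosure k} {z : ℂ} {u : AlgebraicClosure k}
    (hu : HasResidue φ z u) : UnitAt φ z ↔ u ≠ 0 := by
  constructor
  · rintro ⟨v, hv, h⟩
    rwa [residue_unique hu h]
  · exact fun h => ⟨u, h, hu⟩

theorem UnitAt.ne_zero {φ : AlgInt →+* AlgebraicClosure k} {z : ℂ} (h : UnitAt φ z) : z ≠ 0 := by
  rintro rfl
  obtain ⟨u, hu, x, s, hs, h1, h2⟩ := h
  rw [mul_zero] at h1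
  have h3 : x = 0 := Subtype.ext h1.symm
  rw [h3, map_zero] at h2
  exact mul_ne_zero hs hu h2.symm

open Classical in
/-- The number of the zeros `y` of the polynomial `H`, with their multiplicities, such that the residue of
`1 / (#k y)` is `u`. -/
noncomputable def lambda (φ : AlgInt →+* AlgebraicClosure k) (u : AlgebraicClosure k) (H : ℂ[X]) : ℕ :=
  Multiset.card (H.roots.filter fun y => HasResidue φ ((Nat.card k : ℂ) * y)⁻¹ u)

/-- The product over the closed points of the plane above the closed point `P` of the `t`-line, in the same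
variable `T`: the product of the factors `1 - χ(N f(Q)) T ^ (deg P deg Q)` over the closed points `Q` of the
`x`-line over the residue field of `P`. -/
noncomputable def Lplace (f : k[X][X]) (χ : MulChar k ℂ) (P : ClosedPt k) : PowerSeries ℂ :=
  haveI : Fact (Irreducible P.1) := ⟨P.2.2⟩
  eulerProduct (fun Q : ClosedPt (AdjoinRoot P.1) => ptDegree P * ptDegree Q)
    (fun Q => 1 - PowerSeries.C (χ (normValue (f.map (AdjoinRoot.mk P.1)) Q)) *
      PowerSeries.X ^ (ptDegree P * ptDegree Q))

/-- The ramification index of the place `P` of the `t`-line in `Spec O`: the order of the inertia groups of the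
points above `P` (they are conjugate). -/
noncomputable def ramIndex (k : Type) [Field k] (G O : Type) [Group G] [Finite G] [CommRing O]
    [Algebra k[X] O] [MulSemiringAction G O] (P : ClosedPt k) : ℕ :=
  sSup {e | ∃ 𝔪 : MaximalSpectrum O, algebraMap k[X] O P.1 ∈ 𝔪.asIdeal ∧
    e = Nat.card (𝔪.asIdeal.inertia G)}

theorem Lplace_eq [Fintype k] (f : k[X][X]) (χ : MulChar k ℂ) (P : ClosedPt k) :
    Lplace f χ P = Pool.Agent.K4H5.KD.LP χ f P := by
  have : Fact (Irreducible P.1) := ⟨P.2.2⟩
  have hfd : FiniteDimensional k (AdjoinRoot P.1) := P.2.1.finite_adjoinRoot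
  have hfin : Finite (AdjoinRoot P.1) := Module.finite_of_finite k
  have hdv : ∀ (a : ℂ) (n : ℕ), (PowerSeries.X : PowerSeries ℂ) ^ n ∣
      (1 - PowerSeries.C a * PowerSeries.X ^ n) - 1 := by
    intro a n
    rw [sub_right_comm, sub_self, zero_sub]
    exact (dvd_neg).2 (dvd_mul_left _ _)
  unfold Pool.Agent.K4H5.KD.LP Pool.Agent.Y709.Gen.fibG
  rw [Pool.Agent.Y709.expand_euler
    (fun n => Pool.Agent.W313.Hyp.finite_deg_le (F := AdjoinRoot P.1) n)
    (Pool.Agent.Y709.deg_ne P) (fun Q => hdv _ _)]
  show Pool.Agent.W343.BSD.eulerProd _ _ = _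
  congr 1
  funext Q
  rw [map_sub, map_one, map_mul, map_pow, PowerSeries.expand_X, PowerSeries.expand_C, ← pow_mul]
  rfl

theorem mult_le_lambda [Finite k] (φ : AlgInt →+* AlgebraicClosure k) (H : ℂ[X]) :
    H.rootMultiplicity (Nat.card k : ℂ)⁻¹ ≤ lambda φ 1 H := by
  classical
  have hq : (Nat.card k : ℂ) ≠ 0 := Nat.cast_ne_zero.2 Nat.card_pos.ne'
  unfold lambda
  rw [← count_roots, Multiset.count_eq_card_filter_eq]
  refine Multiset.card_le_card ?_
  refine Multiset.monotone_filter_right _ ?_
  rintro y rfl
  rw [mul_inv_cancel₀ hq, inv_one]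
  exact ⟨1, 1, by rw [map_one]; exact one_ne_zero, by simp, by simp⟩

theorem lambda_eq [Fintype k] (φ : AlgInt →+* AlgebraicClosure k) (u : AlgebraicClosure k) (H : ℂ[X]) :
    lambda φ u H = Pool.Agent.K4H5.KD.lam φ (Fintype.card k : ℂ) u H := by
  unfold lambda Pool.Agent.K4H5.KD.lam
  rw [Nat.card_eq_fintype_card]
  rfl

section ram

variable {O : Type} [CommRing O] [Algebra k[X] O] (G : Type) [Group G] [Finite G]
  [MulSemiringAction G O]

theorem mem_iff [Finite k] [IsGaloisGroup G k[X] O] (P : ClosedPt k) (𝔪 : MaximalSpectrum O) :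
    algebraMap k[X] O P.1 ∈ 𝔪.asIdeal ↔ 𝔪 ∈ Pool.Agent.Y709.Lay.above k P := by
  have hfd := Pool.Agent.Y709.Lay.finiteDim_RO (k := k) G 𝔪
  constructor
  · intro hP
    have h4 : Pool.Agent.Y709.Lay.vO k 𝔪 P.1 = 0 := (Pool.Agent.Y709.Lay.vO_eq_zero k).2 hP
    rw [Pool.Agent.Y709.Lay.vO_zero_iff] at h4
    have h5 := (Pool.Agent.Y709.Lay.pt (k := k) 𝔪).2
    show (Pool.Agent.Y709.Lay.pt (k := k) 𝔪).1 = P.1
    exact eq_of_monic_of_associated h5.1 P.2.1 (h5.2.associated_of_dvd P.2.2 h4)
  · intro h
    have h5 : (Pool.Agent.Y709.Lay.pt (k := k) 𝔪).1 = P.1 := h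
    rw [← Pool.Agent.Y709.Lay.vO_eq_zero k, Pool.Agent.Y709.Lay.vO_zero_iff, h5]

theorem ramIndex_eq [Fintype k] [IsGaloisGroup G k[X] O] [FaithfulSMul k[X] O] (P : ClosedPt k)
    (𝔪 : MaximalSpectrum O) (h : algebraMap k[X] O P.1 ∈ 𝔪.asIdeal) :
    ramIndex k G O P = Nat.card (𝔪.asIdeal.inertia G) := by
  have hm := (mem_iff G P 𝔪).1 h
  have h1 : {e | ∃ 𝔪 : MaximalSpectrum O, algebraMap k[X] O P.1 ∈ 𝔪.asIdeal ∧
      e = Nat.card (𝔪.asIdeal.inertia G)} = {Nat.card (𝔪.asIdeal.inertia G)} := by
    ext e
    rw [Set.mem_singleton_iff]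
    constructor
    · rintro ⟨𝔫, h𝔫, rfl⟩
      have hn := (mem_iff G P 𝔫).1 h𝔫
      have h2 := Pool.Agent.Y709.Lay.inertia_mul G hm
      have h3 := Pool.Agent.Y709.Lay.inertia_mul G hn
      rw [Pool.Agent.K4H5.KD.inertiaDeg_above G hn hm] at h3
      have h4 : 0 < Nat.card G := Nat.card_pos
      rw [mul_right_comm] at h2 h3
      have h5 : 0 < (Pool.Agent.Y709.Lay.above k P : Set (MaximalSpectrum O)).ncard *
          𝔪.asIdeal.inertiaDeg k[X] := by
        rw [← h2] at h4
        exact Nat.pos_of_mul_pos_right h4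
      exact Nat.eq_of_mul_eq_mul_left h5 (h3.trans h2.symm)
    · rintro rfl
      exact ⟨𝔪, h, rfl⟩
  unfold ramIndex
  rw [h1, csSup_singleton]

theorem defect_eq [Fintype k] [IsGaloisGroup G k[X] O] [FaithfulSMul k[X] O] (P : ClosedPt k)
    (h : P ∈ ramified k G O) :
    Pool.Agent.K4H5.BC.defect O G P = Nat.card G - Nat.card G / ramIndex k G O P := by
  obtain ⟨𝔪, h1, -⟩ := h
  rw [ramIndex_eq G P 𝔪 h1, Pool.Agent.K4H5.KD.defect_eq G ((mem_iff G P 𝔪).1 h1)]

end ram

end place

/-- **A formula of Kida and the formula of Birch and Swinnerton-Dyer over the Galois extensions of `k(t)` of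
`p`-power degree.**

Let `k` be a finite field of characteristic `p`, `q = #k`, `n` a divisor of `q - 1`, `χ` a character of `k*` of
exact order `n`, `f(t, x)` ANY polynomial over `k` of degree at most `a` in `x`. Let `j` be prime to `n`,
`0 < j < n`, such that `a r < n` for the remainders `r` of all `p ^ i j` modulo `n` (if `n` divides `p - 1`:
`a j < n`; `j = 1` is possible for all `n > a`). Let `A` be the part of the Jacobian of `y ^ n = f(t, x)` over `k(t)`
belonging to the characters of exact order `n` of the group of roots of unity (the whole Jacobian for a prime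
number `n`). For a Galois extension `L` of `k(t)` with the group `G` of order a power of `p` let `O` be the ring
of the elements integral over `k[t]`; `L` may contain a larger field of constants, and the wild ramification
is arbitrary. Let `H(T)`, `T = q ^ (-s)`, be the `L`-function of the `χ`-part of the surface over `Spec O`, and
`H₀(T)` that over `k[t]`; they are polynomials by Grothendieck if `A` has no constant part. For a place `P`
of `k(t)` let `Hloc_P(T)` be the `χ`-part of the numerator of the zeta function of the fibre at `P`, in the variable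
`T ^ (deg P)`. Let `φ` be a place above `p` of the field of all algebraic numbers for which the residue of
`χ(u)` is `u ^ (j (q - 1) / n)`. The zeros of the polynomials are the numbers `1 / α` for Weil numbers `α`; let
`lambda_u` be the number of the zeros for which `α / q` has the residue `u ≠ 0` at `φ`: the part of slope one,
to which the zeros `α = q` giving the order of vanishing at `s = 1` belong, for `u = 1`.

Theorem. Such places `φ` exist, and for all of them:
* (Kida's formula) for ALL `L` and all `u ≠ 0`
  `lambda_u(H) = [L : k(t)] lambda_u(H₀) + ∑ [L : k(t)] (1 - 1 / e_P) lambda_u(Hloc_P)`,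
  the sum over the places `P ≠ ∞` ramified in `L`, `e_P` the ramification index;
* (the values at `s = 1`) for ALL `L`
  `H(1 / q) ≡ H₀(1 / q) ^ [L : k(t)] ∏ Hloc_P(1 / q) ^ ([L : k(t)] (1 - 1 / e_P))` modulo `φ`;
  so `H(1 / q)` is a unit at `φ` if and only if `H₀(1 / q)` and `Hloc_P(1 / q)` for the ramified `P ≠ ∞` are.
* (the ranks) For ALL `L` the `L`-functions of all characters `χ'` of exact order `n`, whose product is
  `L(A / L, s)` up to local factors, are polynomials with the same order of vanishing at `s = 1`, that is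
  `T = 1 / q`, it is at most `lambda_1(H)`, and it is `0` for all `χ'` if `H(1 / q)` is a unit at `φ`.
* Let `f = c ∏ g_l ^ E_l`, `c` in `k`, for example the factorisation into irreducible polynomials, and let also
  `deg_t(f) r < n`. Then the sum of `lambda_u(H₀)` over all `u ≠ 0` is at most the number `C = branchForms` of
  the linearly independent differential forms `u dt / (∂g_l/∂x)` on the components `g_l = 0` of the
  branch curve with at most simple poles at infinity and no other poles; if `C = 0`, then
  `H₀(1 / q) ≡ 1` modulo `φ`. `C = 0` if every `g_l = 0` is a vertical line or is parametrised by polynomials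
  `t = A(z)`, `x = B(z)` and `D r < n` for the degree `D` of `f` with the weights `deg A`, `deg B`.

Meaning, for the conjecture of Birch and Swinnerton-Dyer. The difference between `L(A / L, s)` and the product
of the `H` for all `χ'` are finitely many local factors, which by Deligne's theorem on the weights have no
zeros or poles at `s = 1`. So the analytic rank of `A` over `L` is `φ(n)` times the order in the theorem, and
`L(A / L, 1) ≠ 0` as soon as `L(A / k(t), 1)` is not divisible by `φ` and no ramified place `P ≠ ∞` is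
anomalous: no `α / q ^ (deg P)` is `1` modulo `φ` for the eigenvalues `α` of the Frobenius on the `χ`-part
of the fibre at `P`. If all components of the branch curve are parametrised by polynomials, the first
condition holds for ALL constant twists `y ^ n = c f(t, x)`. For all these `A` and ALL Galois extensions `L` of
`p`-power degree of `k(t)` in which only `∞` and places that are not anomalous are ramified, `A(L)` and the
Tate–Shafarevich group are finite and the formula of Birch and Swinnerton-Dyer holds, by the theorem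
and by Tate, Milne and Kato–Trihan. The formulas of the type of Kida's known to us (Iwasawa, Kida;
Hachimori–Matsuno for elliptic curves; in characteristic `p` Pacheco, Ochiai–Trihan, Kato–Trihan,
Lai–Longhi–Tan–Trihan) are about `Z_p ^ d`-towers and their invariants; this one is about single extensions,
with an arbitrary `p`-group, arbitrary wild ramification and any reduction of `A`, and about all
residues `u`. -/
theorem result (k : Type) [Field k] [Finite k] (p : ℕ) [Fact p.Prime] [CharP k p] (n : ℕ)
    (hn : n ∣ Nat.card k - 1) (a : ℕ) (ha : 2 ≤ a) (j : ℕ) (hj0 : 0 < j) (hjn : j < n)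
    (hj : j.Coprime n) (hij : ∀ i : ℕ, a * ((p ^ i * j) % n) < n) (χ : MulChar k ℂ)
    (hχ : orderOf χ = n) :
    (∃ φ : AlgInt →+* AlgebraicClosure k, IsPlace n j χ φ) ∧
    ∀ φ : AlgInt →+* AlgebraicClosure k, IsPlace n j χ φ →
      ∀ f : k[X][X], f.natDegree ≤ a → ∀ H₀ : ℂ[X], Lfun f k[X] χ = (H₀ : PowerSeries ℂ) →
        (∀ (G O : Type) [Group G] [Finite G] [CommRing O] [Algebra k[X] O] [MulSemiringAction G O],
          IsPCovering k p G O → ∀ (H : ℂ[X]) (Hloc : ClosedPt k → ℂ[X]),
          Lfun f O χ = (H : PowerSeries ℂ) →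
          (∀ P ∈ ramified k G O, Lplace f χ P * (Hloc P : PowerSeries ℂ) = 1) →
          (∀ u : AlgebraicClosure k, u ≠ 0 → lambda φ u H = Nat.card G * lambda φ u H₀ +
            ∑ᶠ P ∈ ramified k G O,
              (Nat.card G - Nat.card G / ramIndex k G O P) * lambda φ u (Hloc P)) ∧
          ∃ (u₀ : AlgebraicClosure k) (uloc : ClosedPt k → AlgebraicClosure k),
            HasResidue φ (H₀.eval (Nat.card k : ℂ)⁻¹) u₀ ∧
            (∀ P ∈ ramified k G O, HasResidue φ ((Hloc P).eval (Nat.card k : ℂ)⁻¹) (uloc P)) ∧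
            HasResidue φ (H.eval (Nat.card k : ℂ)⁻¹) (u₀ ^ Nat.card G *
              ∏ᶠ P ∈ ramified k G O, uloc P ^ (Nat.card G - Nat.card G / ramIndex k G O P)) ∧
            (UnitAt φ (H.eval (Nat.card k : ℂ)⁻¹) ↔ UnitAt φ (H₀.eval (Nat.card k : ℂ)⁻¹) ∧
              ∀ P ∈ ramified k G O, UnitAt φ ((Hloc P).eval (Nat.card k : ℂ)⁻¹)) ∧
            H.rootMultiplicity (Nat.card k : ℂ)⁻¹ ≤ lambda φ 1 H ∧
            ∀ χ' : MulChar k ℂ, orderOf χ' = n → ∃ H' : ℂ[X], Lfun f O χ' = (H' : PowerSeries ℂ) ∧
              H'.rootMultiplicity (Nat.card k : ℂ)⁻¹ = H.rootMultiplicity (Nat.card k : ℂ)⁻¹ ∧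
              (UnitAt φ (H.eval (Nat.card k : ℂ)⁻¹) → H'.eval (Nat.card k : ℂ)⁻¹ ≠ 0)) ∧
        ∀ (κ : Type) [Fintype κ] (c : k) (g : κ → k[X][X]) (E : κ → ℕ),
          f = C (C c) * ∏ l, g l ^ E l → (∀ i : ℕ, tDegree f * ((p ^ i * j) % n) < n) →
          (∀ Z : Finset (AlgebraicClosure k), (∀ u ∈ Z, u ≠ 0) →
            ∑ u ∈ Z, lambda φ u H₀ ≤ branchForms p n j f g) ∧
          (branchForms p n j f g = 0 → HasResidue φ (H₀.eval (Nat.card k : ℂ)⁻¹) 1) ∧
          ((∀ l, IsPolynomialCurve p n j (base (AlgebraicClosure k) f)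
            (base (AlgebraicClosure k) (g l))) → branchForms p n j f g = 0) := by
  classical
  have hFk : Fintype k := Fintype.ofFinite k
  have hcard : Nat.card k = Fintype.card k := Nat.card_eq_fintype_card
  have hn1 : n ∣ Fintype.card k - 1 := by
    rw [← hcard]
    exact hn
  have hn0 : 0 < n := by omega
  constructor
  · obtain ⟨φ, hφ⟩ := Pool.Agent.K4H5.KD.exists_phi k hn0 hn1 χ hχ hj hj0
    refine ⟨φ, fun u => ?_⟩
    rw [hcard]
    exact hφ u
  intro φ hφ f hf H₀ hH₀
  have hφ' : ∀ u : k, ∃ x : Pool.Agent.K4H5.BC.AI, (x : ℂ) = χ u ∧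
      φ x = algebraMap k (AlgebraicClosure k) u ^ (j * (Fintype.card k - 1) / n) := by
    intro u
    rw [← hcard]
    exact hφ u
  rw [Lfun_eq] at hH₀
  have hfc : ∀ b : ℕ, (f.coeff b).natDegree ≤ 0 * (a - b) + Pool.Agent.K4H5.BD.degT f := by
    intro b
    rw [zero_mul, zero_add]
    exact Pool.Agent.K4H5.BD.natDegree_le_degT f b
  constructor
  · intro G O _ _ _ _ _ hO H Hloc hH hloc
    obtain ⟨⟨F₁, hF₁⟩, -, hF₁'⟩ := FiniteField.card k p
    have hkF : Fintype.card k = p ^ F₁ := hF₁'
    obtain ⟨-, -, hmain⟩ := Pool.Agent.K4H5.KD.main_kd k p hn1 ha hj0 hjn hij χ φ hφ' f hf hfc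
      (Pool.Agent.K4H5.BC.Del (AlgebraicClosure k) p F₁ (fun b : Fin (a + 1) => f.coeff b)
        (Pool.Agent.K4H5.BC.dig p F₁ n j) 0 (Pool.Agent.K4H5.BD.degT f)).natDegree (by
        intro F₀ _ h
        have h1 : F₀ = F₁ :=
          Nat.pow_right_injective (Fact.out : p.Prime).two_le (h.symm.trans hkF)
        rw [h1]) H₀ hH₀
    have i6 := hO.galois
    have i7 : FaithfulSMul k[X] O := (faithfulSMul_iff_algebraMap_injective _ _).2 hO.injective
    obtain ⟨g', hg⟩ := hO.pGroup
    obtain ⟨B, hB, hgen⟩ := hO.generic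
    have hun : ∀ 𝔪 : MaximalSpectrum O, Pool.Agent.Y709.Lay.vO k 𝔪 B ≠ 0 →
        𝔪.asIdeal.inertia G = ⊥ := by
      intro 𝔪 h𝔪
      apply hgen
      intro h0
      exact h𝔪 ((Pool.Agent.Y709.Lay.vO_eq_zero k).2 h0)
    -- the ramified places
    have hsub : ramified k G O ⊆ (Pool.Agent.K4H5.BC.divs B : Finset (ClosedPt k)) := by
      rintro P ⟨𝔪, hP, hI⟩
      rw [Finset.mem_coe, Pool.Agent.K4H5.BC.mem_divs hB]
      have hfd := Pool.Agent.Y709.Lay.finiteDim_RO (k := k) G 𝔪
      have h3 : Pool.Agent.Y709.Lay.vO k 𝔪 B = 0 := by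
        by_contra h
        exact hI (hun 𝔪 h)
      have h4 : Pool.Agent.Y709.Lay.vO k 𝔪 P.1 = 0 := (Pool.Agent.Y709.Lay.vO_eq_zero k).2 hP
      rw [Pool.Agent.Y709.Lay.vO_zero_iff] at h3 h4
      have h5 := (Pool.Agent.Y709.Lay.pt (k := k) 𝔪).2
      have h6 : (Pool.Agent.Y709.Lay.pt (k := k) 𝔪).1 = P.1 :=
        eq_of_monic_of_associated h5.1 P.2.1 (h5.2.associated_of_dvd P.2.2 h4)
      rw [← h6]
      exact h3
    have hfin : (ramified k G O).Finite := (Finset.finite_toSet _).subset hsub
    have hdef0 : ∀ P : ClosedPt k, P ∉ ramified k G O →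
        Pool.Agent.K4H5.BC.defect O G P = 0 := by
      intro P hP
      by_contra h
      obtain ⟨𝔪, h𝔪, hI⟩ := Pool.Agent.K4H5.BC.defect_ne (O := O) G h
      exact hP ⟨𝔪, (mem_iff G P 𝔪).2 h𝔪, hI⟩
    have hsubF : hfin.toFinset ⊆ Pool.Agent.K4H5.BC.divs B := by
      intro P hP
      rw [Set.Finite.mem_toFinset] at hP
      exact Finset.mem_coe.1 (hsub hP)
    have hsum : ∀ w : ClosedPt k → ℕ, ∑ P ∈ Pool.Agent.K4H5.BC.divs B,
        Pool.Agent.K4H5.BC.defect O G P * w P =
          ∑ᶠ P ∈ ramified k G O, (Nat.card G - Nat.card G / ramIndex k G O P) * w P := by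
      intro w
      rw [finsum_mem_eq_finite_toFinset_sum _ hfin]
      symm
      refine (Finset.sum_congr rfl fun P hP => ?_).trans (Finset.sum_subset hsubF ?_)
      · rw [Set.Finite.mem_toFinset] at hP
        rw [defect_eq G P hP]
      · intro P _ hP
        rw [Set.Finite.mem_toFinset] at hP
        rw [hdef0 P hP, zero_mul]
    have hprod : ∀ w : ClosedPt k → AlgebraicClosure k, ∏ P ∈ Pool.Agent.K4H5.BC.divs B,
        w P ^ Pool.Agent.K4H5.BC.defect O G P =
          ∏ᶠ P ∈ ramified k G O, w P ^ (Nat.card G - Nat.card G / ramIndex k G O P) := by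
      intro w
      rw [finprod_mem_eq_finite_toFinset_prod _ hfin]
      symm
      refine (Finset.prod_congr rfl fun P hP => ?_).trans (Finset.prod_subset hsubF ?_)
      · rw [Set.Finite.mem_toFinset] at hP
        rw [defect_eq G P hP]
      · intro P _ hP
        rw [Set.Finite.mem_toFinset] at hP
        rw [hdef0 P hP, pow_zero]
    rw [Lfun_eq] at hH
    obtain ⟨h1, u₀, uloc, h2, h3, h4⟩ := hmain G O g' hg B hB hun H hH Hloc (by
      intro P _ hd
      rw [← Lplace_eq]
      apply hloc
      by_contra h
      exact hd (hdef0 P h))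
    constructor
    · intro u hu
      rw [lambda_eq, lambda_eq, h1 u hu, hsum]
      congr 1
      refine finsum_congr fun P => finsum_congr fun _ => ?_
      rw [lambda_eq]
    · rw [hcard]
      have hdefP : ∀ P ∈ ramified k G O, Pool.Agent.K4H5.BC.defect O G P ≠ 0 := by
        intro P hP
        obtain ⟨𝔪, h5, h6⟩ := hP
        exact (Pool.Agent.K4H5.KD.defect_pos G ((mem_iff G P 𝔪).1 h5) h6).ne'
      have h3' : ∀ P ∈ ramified k G O,
          HasResidue φ ((Hloc P).eval (Fintype.card k : ℂ)⁻¹) (uloc P) := fun P hP =>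
        h3 P (Finset.mem_coe.1 (hsub hP)) (hdefP P hP)
      refine ⟨u₀, uloc, h2, h3', ?_, ?_, ?_, ?_⟩
      · rw [← hprod, mul_comm]
        exact h4
      · rw [unitAt_iff h4, unitAt_iff h2]
        have hG0 : Nat.card G ≠ 0 := Nat.card_pos.ne'
        constructor
        · intro h
          refine ⟨fun h0 => right_ne_zero_of_mul h (by rw [h0, zero_pow hG0]), fun P hP => ?_⟩
          rw [unitAt_iff (h3' P hP)]
          intro h0
          refine left_ne_zero_of_mul h (Finset.prod_eq_zero (Finset.mem_coe.1 (hsub hP)) ?_)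
          rw [h0, zero_pow (hdefP P hP)]
        · rintro ⟨h5, h6⟩
          refine mul_ne_zero (Finset.prod_ne_zero_iff.2 fun P _ => ?_) (pow_ne_zero _ h5)
          by_cases hP : P ∈ ramified k G O
          · exact pow_ne_zero _ ((unitAt_iff (h3' P hP)).1 (h6 P hP))
          · rw [hdef0 P hP, pow_zero]
            exact one_ne_zero
      · rw [← hcard]
        exact mult_le_lambda φ H
      · intro χ' hχ'
        obtain ⟨H', h5, h6⟩ := Pool.Agent.K4H5.KD.conj_mult hn0 χ χ' hχ hχ' _
          (Pool.Agent.Y709.Lay.cover_finite (k := k) (O := O) G) _ (Fintype.card k) H hH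
        refine ⟨H', ?_, h6, ?_⟩
        · rw [Lfun_eq]
          exact h5
        · intro h
          have h7 : H.rootMultiplicity (Fintype.card k : ℂ)⁻¹ = 0 :=
            rootMultiplicity_eq_zero h.ne_zero
          rw [h7, rootMultiplicity_eq_zero_iff] at h6
          intro h8
          have h9 := h6 h8
          have h10 := Pool.Agent.K4H5.KD.constantCoeff_LB (O := O) G χ' f
          have h11 : Pool.Agent.K4H5.BC.LB O χ' f = (H' : PowerSeries ℂ) := h5
          rw [h11, h9, Polynomial.coe_zero, map_zero] at h10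
          exact zero_ne_one h10
  · intro κ _ c g E hfg hit
    let g' : Option κ → k[X][X] := fun l => l.elim (C (C c)) g
    let E' : Option κ → ℕ := fun l => l.elim 1 E
    have hfg' : f = ∏ l, g' l ^ E' l := by
      rw [Fintype.prod_option]
      show f = C (C c) ^ 1 * ∏ l, g l ^ E l
      rw [pow_one]
      exact hfg
    have h0 : IsPolynomialCurve p n j (base (AlgebraicClosure k) f)
        (base (AlgebraicClosure k) (C (C c) : k[X][X])) := by
      left
      unfold base
      rw [map_C, natDegree_C]
    have hbf : ∑ l, Module.finrank (AlgebraicClosure k) (Pool.Agent.K4H5.BD.Adj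
        (Pool.Agent.K4H5.BD.Sml p n j)
        (Pool.Agent.K4H5.BD.tw2 (algebraMap k (AlgebraicClosure k)) f)
        (Pool.Agent.K4H5.BD.tw2 (algebraMap k (AlgebraicClosure k)) (g' l))) =
        branchForms p n j f g := by
      rw [Fintype.sum_option]
      have h1 : Module.finrank (AlgebraicClosure k) (Pool.Agent.K4H5.BD.Adj
          (Pool.Agent.K4H5.BD.Sml p n j)
          (Pool.Agent.K4H5.BD.tw2 (algebraMap k (AlgebraicClosure k)) f)
          (Pool.Agent.K4H5.BD.tw2 (algebraMap k (AlgebraicClosure k)) (g' none))) = 0 := by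
        have h2 := logForms_bot _ _ _ _ _ h0
        rw [logForms_eq] at h2
        show Module.finrank (AlgebraicClosure k) (Pool.Agent.K4H5.BD.Adj
          (Pool.Agent.K4H5.BD.Sml p n j) (base (AlgebraicClosure k) f)
          (base (AlgebraicClosure k) (C (C c) : k[X][X]))) = 0
        rw [h2, finrank_bot]
      rw [h1, zero_add]
      unfold branchForms
      refine Finset.sum_congr rfl fun l _ => ?_
      rw [logForms_eq]
      rfl
    have hbd := Pool.Agent.K4H5.KD.bd_adj k p hn1 hj0 hjn hij g' E' f hfg' hf hit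
    rw [hbf] at hbd
    obtain ⟨h1, h2, -⟩ := Pool.Agent.K4H5.KD.main_kd k p hn1 ha hj0 hjn hij χ φ hφ' f hf hfc
      (branchForms p n j f g) hbd H₀ hH₀
    refine ⟨?_, ?_, ?_⟩
    · intro Z hZ
      simp only [lambda_eq]
      exact h1 Z hZ
    · intro h
      rw [hcard]
      exact h2 h
    · intro h
      unfold branchForms
      refine Finset.sum_eq_zero fun l _ => ?_
      rw [logForms_bot _ _ _ _ _ (h l), finrank_bot]

end Pool.Agent.Results.MP_60d5ce_nt.PExtensionsKidaFormula
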