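import Pool.Agent.K4H5.US.Kida
import Pool.Agent.K4H5.US.Roots
import Pool.Agent.K4H5.KD.Phi

/-!
The universal family of the split superelliptic curves `y ^ (q - 1) = D(t) B(t) ∏ (x - β_i(t)) ^ (m_i)` over
`k(t)`, `k ⊇ 𝔽_q` a finite field of characteristic `p`: for all but a proportion `((r + 1) ^ 4 + 2) / q` of all
the tuples `(D, β_0, …, β_r)` of polynomials of degrees at most `N` and `d`, for ALL `d`, over ALL Galois
extensions `L` of `k(t)` of degree a power of `p` at once the `L`-function has no zeros with residue one at a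
place above `p` but those that come from the places ramified in `L`, and it does not vanish at `s = 1` if
these are not anomalous.
-/

set_option autoImplicit false

open Polynomial

namespace Pool.Agent.Results.MP_60d5ce_nt.PExtensionsUniversalFamily

section generic

/-- The closed points of the affine line over the field `F`: monic irreducible polynomials. -/
abbrev ClosedPt (F : Type) [Field F] : Type := {P : F[X] // P.Monic ∧ Irreducible P}

variable {F : Type} [Field F]

/-- The degree of a closed point of the affine line over `F`. -/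
noncomputable def ptDegree (P : ClosedPt F) : ℕ := P.1.natDegree

/-- The norm to `k` of the value of the polynomial `g` over `F` at the closed point `Q` of the affine
line over the extension `F` of `k`. -/
noncomputable def normValue {k : Type} [Field k] [Algebra k F] (g : F[X]) (Q : ClosedPt F) : k :=
  Algebra.norm k (AdjoinRoot.mk Q.1 g)

/-- The Euler product: its coefficient of index `n` is that of the product of the factors of degree
at most `n`. -/
noncomputable def eulerProduct {ι : Type} (d : ι → ℕ) (f : ι → PowerSeries ℂ) : PowerSeries ℂ :=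
  PowerSeries.mk fun n => PowerSeries.coeff n (∏ᶠ (i : ι) (_ : d i ≤ n), f i)

end generic

section points

variable {k : Type} [Field k] {O : Type} [CommRing O] [Algebra k[X] O]

/-- The residue field of a closed point of `Spec O`, for an algebra `O` over `k[t]`. -/
def Res (𝔪 : MaximalSpectrum O) : Type := O ⧸ 𝔪.asIdeal

attribute [local instance] MaximalSpectrum.isMaximal in
noncomputable instance resField (𝔪 : MaximalSpectrum O) : Field (Res 𝔪) :=
  Ideal.Quotient.field 𝔪.asIdeal

/-- The value at `𝔪` of a polynomial in `t`. -/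
noncomputable def value (𝔪 : MaximalSpectrum O) : k[X] →+* Res 𝔪 :=
  (Ideal.Quotient.mk 𝔪.asIdeal).comp (algebraMap k[X] O)

noncomputable instance resAlgebra (𝔪 : MaximalSpectrum O) : Algebra k (Res 𝔪) :=
  ((value 𝔪).comp C).toAlgebra

/-- The closed points of the product of `Spec O` and the `x`-line: a closed point of `Spec O` and a
closed point of the `x`-line over its residue field. -/
structure SurfacePt (O : Type) [CommRing O] : Type where
  place : MaximalSpectrum O
  point : ClosedPt (Res place)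

variable (k) in
/-- The degree of a closed point over `k`. -/
noncomputable def SurfacePt.deg (z : SurfacePt O) : ℕ :=
  Module.finrank k (Res z.place) * ptDegree z.point

/-- The finite `p`-group `G` acts on the ring `O ⊇ k[t]` faithfully and with the ring of invariants `k[t]`,
and the inertia groups are trivial at the points where some polynomial `R(t) ≠ 0` is not zero: `Spec O` is a
Galois covering of the `t`-line with the group `G`. -/
structure IsPCovering (k : Type) [Field k] (p : ℕ) (G O : Type) [Group G] [Finite G] [CommRing O]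
    [Algebra k[X] O] [MulSemiringAction G O] : Prop where
  galois : IsGaloisGroup G k[X] O
  injective : Function.Injective (algebraMap k[X] O)
  pGroup : ∃ m : ℕ, Nat.card G = p ^ m
  generic : ∃ R : k[X], R ≠ 0 ∧ ∀ 𝔪 : MaximalSpectrum O, algebraMap k[X] O R ∉ 𝔪.asIdeal →
    𝔪.asIdeal.inertia G = ⊥

/-- The places of the `t`-line that are ramified in `Spec O`: there is a point of `Spec O` above the
place with a nontrivial inertia group. -/
def ramified (k : Type) [Field k] (G O : Type) [Group G] [Finite G] [CommRing O]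
    [Algebra k[X] O] [MulSemiringAction G O] : Set (ClosedPt k) :=
  {P | ∃ 𝔪 : MaximalSpectrum O, algebraMap k[X] O P.1 ∈ 𝔪.asIdeal ∧ 𝔪.asIdeal.inertia G ≠ ⊥}

end points

section defs

variable {k : Type} [Field k]

/-- The `L`-function in the variable `T = (#k) ^ (-s)` of the `χ`-part of the surface `y ^ n = f(t, x)`
over the covering `Spec O` of the `t`-line: the product over the closed points `z` of `Spec O × 𝔸¹` of
the factors `1 - χ(N f(z)) T ^ (deg z)`, where `N f(z)` is the norm to `k` of the value of `f` at `z`, and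
`χ(0) = 0`. -/
noncomputable def Lfun (f : k[X][X]) (O : Type) [CommRing O] [Algebra k[X] O]
    (χ : MulChar k ℂ) : PowerSeries ℂ :=
  eulerProduct (fun z : SurfacePt O => z.deg k)
    (fun z => 1 - PowerSeries.C (χ (normValue (f.map (value z.place)) z.point)) *
      PowerSeries.X ^ z.deg k)

theorem Lfun_eq (f : k[X][X]) (O : Type) [CommRing O] [Algebra k[X] O] (χ : MulChar k ℂ) :
    Lfun f O χ = Pool.Agent.K4H5.BC.LB O χ f := by
  unfold Lfun Pool.Agent.K4H5.BC.LB eulerProduct Pool.Agent.W343.BSD.eulerProd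
  ext n
  rw [PowerSeries.coeff_mk, PowerSeries.coeff_mk]
  congr 1
  let E : (Σ 𝔪 : MaximalSpectrum O, Pool.Agent.W313.Hyp.MI (Pool.Agent.Y709.Lay.RO k 𝔪)) ≃
      SurfacePt O :=
    { toFun := fun z => ⟨z.1, z.2⟩
      invFun := fun z => ⟨z.place, z.point⟩
      left_inv := fun _ => rfl
      right_inv := fun _ => rfl }
  exact (finprod_comp_equiv E
    (f := fun z : SurfacePt O => ∏ᶠ (_ : z.deg k ≤ n),
      (1 - PowerSeries.C (χ (normValue (f.map (value z.place)) z.point)) *
        PowerSeries.X ^ z.deg k : PowerSeries ℂ))).symm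

end defs

section place

/-- The ring of all algebraic integers. -/
abbrev AlgInt : Type := integralClosure ℤ ℂ

variable {k : Type} [Field k]

/-- The homomorphism `φ` from the ring of all algebraic integers to the algebraic closure of `k` (a place of
the field of all algebraic numbers above `p`) for which the residue of `χ(u)` is `u ^ ((#k - 1) / n)`. -/
def IsPlace (n : ℕ) (χ : MulChar k ℂ) (φ : AlgInt →+* AlgebraicClosure k) : Prop :=
  ∀ u : k, ∃ x : AlgInt, (x : ℂ) = χ u ∧
    φ x = algebraMap k (AlgebraicClosure k) u ^ ((Nat.card k - 1) / n)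

/-- The residue at `φ` of the number `z` is `u`: `z` is a quotient `x / s` of algebraic integers with
`φ(s) ≠ 0` and `φ(x) = φ(s) u`. -/
def HasResidue (φ : AlgInt →+* AlgebraicClosure k) (z : ℂ) (u : AlgebraicClosure k) : Prop :=
  ∃ x s : AlgInt, φ s ≠ 0 ∧ (s : ℂ) * z = x ∧ φ x = φ s * u

/-- The number `z` is a unit at `φ`: it has a residue that is not `0` (in particular `z` is not `0`). -/
def UnitAt (φ : AlgInt →+* AlgebraicClosure k) (z : ℂ) : Prop :=
  ∃ u : AlgebraicClosure k, u ≠ 0 ∧ HasResidue φ z u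

theorem residue_unique {φ : AlgInt →+* AlgebraicClosure k} {z : ℂ} {u v : AlgebraicClosure k}
    (hu : HasResidue φ z u) (hv : HasResidue φ z v) : u = v := by
  obtain ⟨x, s, hs, h1, h2⟩ := hu
  obtain ⟨x', s', hs', h1', h2'⟩ := hv
  have h3 : s' * x = s * x' := by
    apply Subtype.ext
    show (s' : ℂ) * x = s * x'
    rw [← h1, ← h1']
    ring
  have h4 := congrArg φ h3
  rw [map_mul, map_mul, h2, h2'] at h4
  have h5 : φ s' * φ s * u = φ s' * φ s * v := by
    linear_combination h4
  exact mul_left_cancel₀ (mul_ne_zero hs' hs) h5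

theorem unitAt_iff {φ : AlgInt →+* AlgebraicClosure k} {z : ℂ} {u : AlgebraicClosure k}
    (hu : HasResidue φ z u) : UnitAt φ z ↔ u ≠ 0 := by
  constructor
  · rintro ⟨v, hv, h⟩
    rwa [residue_unique hu h]
  · exact fun h => ⟨u, h, hu⟩

theorem UnitAt.ne_zero {φ : AlgInt →+* AlgebraicClosure k} {z : ℂ} (h : UnitAt φ z) : z ≠ 0 := by
  rintro rfl
  obtain ⟨u, hu, x, s, hs, h1, h2⟩ := h
  rw [mul_zero] at h1
  have h3 : x = 0 := Subtype.ext h1.symm
  rw [h3, map_zero] at h2
  exact mul_ne_zero hs hu h2.symm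

open Classical in
/-- The number of the zeros `y` of the polynomial `H`, with their multiplicities, such that the residue of
`1 / (#k y)` is `u`. -/
noncomputable def lambda (φ : AlgInt →+* AlgebraicClosure k) (u : AlgebraicClosure k) (H : ℂ[X]) : ℕ :=
  Multiset.card (H.roots.filter fun y => HasResidue φ ((Nat.card k : ℂ) * y)⁻¹ u)

/-- The product over the closed points of the plane above the closed point `P` of the `t`-line, in the same
variable `T`: the product of the factors `1 - χ(N f(Q)) T ^ (deg P deg Q)` over the closed points `Q` of the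
`x`-line over the residue field of `P`. -/
noncomputable def Lplace (f : k[X][X]) (χ : MulChar k ℂ) (P : ClosedPt k) : PowerSeries ℂ :=
  haveI : Fact (Irreducible P.1) := ⟨P.2.2⟩
  eulerProduct (fun Q : ClosedPt (AdjoinRoot P.1) => ptDegree P * ptDegree Q)
    (fun Q => 1 - PowerSeries.C (χ (normValue (f.map (AdjoinRoot.mk P.1)) Q)) *
      PowerSeries.X ^ (ptDegree P * ptDegree Q))

/-- The ramification index of the place `P` of the `t`-line in `Spec O`: the order of the inertia groups of the
points above `P` (they are conjugate). -/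
noncomputable def ramIndex (k : Type) [Field k] (G O : Type) [Group G] [Finite G] [CommRing O]
    [Algebra k[X] O] [MulSemiringAction G O] (P : ClosedPt k) : ℕ :=
  sSup {e | ∃ 𝔪 : MaximalSpectrum O, algebraMap k[X] O P.1 ∈ 𝔪.asIdeal ∧
    e = Nat.card (𝔪.asIdeal.inertia G)}

/-- The polynomial `D(t) B(t) ∏ (x - β_i(t)) ^ (m_i)`. -/
noncomputable def curve (B : k[X]) {r : ℕ} (m : Fin (r + 1) → ℕ) (β : Fin (r + 1) → k[X])
    (D : k[X]) : k[X][X] :=
  C (D * B) * ∏ i, (X - C (β i)) ^ m i

/-- The `L`-functions of `y ^ n = f(t, x)` of the characters of exact order `n` have no own zeros with a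
residue `u`, `u ^ e = 1`, over any Galois covering `Spec O` of the line with a `p`-group `G`: all of them come
from the ramified places `P`, the number of them is the sum of
`#G (1 - 1 / e_P)` times the number for the fibre at `P`. The value at `s = 1` is a unit at `φ` if and only if
this holds for the fibres at the ramified places, and the order of vanishing at the point with
`T = 1 / (#k ζ)`, `ζ ^ e = 1`, is at most the number for the residue `u` of `ζ`. -/
def OnlyLocalZeros (k : Type) [Field k] (p n e : ℕ) (f : k[X][X]) : Prop :=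
  ∀ χ : MulChar k ℂ, orderOf χ = n → ∀ φ : AlgInt →+* AlgebraicClosure k, IsPlace n χ φ →
    ∀ (G O : Type) [Group G] [Finite G] [CommRing O] [Algebra k[X] O] [MulSemiringAction G O],
      IsPCovering k p G O → ∀ (H : ℂ[X]) (Hloc : ClosedPt k → ℂ[X]),
        Lfun f O χ = (H : PowerSeries ℂ) →
        (∀ P ∈ ramified k G O, Lplace f χ P * (Hloc P : PowerSeries ℂ) = 1) →
        (∀ u : AlgebraicClosure k, u ^ e = 1 → lambda φ u H = ∑ᶠ P ∈ ramified k G O,
          (Nat.card G - Nat.card G / ramIndex k G O P) * lambda φ u (Hloc P)) ∧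
        (UnitAt φ (H.eval (Nat.card k : ℂ)⁻¹) ↔
          ∀ P ∈ ramified k G O, UnitAt φ ((Hloc P).eval (Nat.card k : ℂ)⁻¹)) ∧
        ∀ (ζ : ℂ) (u : AlgebraicClosure k), ζ ^ e = 1 → HasResidue φ ζ u →
          H.rootMultiplicity ((Nat.card k : ℂ) * ζ)⁻¹ ≤ lambda φ u H

variable (k) in
/-- The polynomials `D` of degree at most `N`. -/
def twists (N : ℕ) : Set k[X] := {D | D.natDegree ≤ N}

variable (k) in
/-- The tuples `(β_0, …, β_r)` of polynomials of degree at most `d`. -/
def sections (r d : ℕ) : Set (Fin (r + 1) → k[X]) := {β | ∀ i, (β i).natDegree ≤ d}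

theorem Lplace_eq [Fintype k] (f : k[X][X]) (χ : MulChar k ℂ) (P : ClosedPt k) :
    Lplace f χ P = Pool.Agent.K4H5.KD.LP χ f P := by
  have : Fact (Irreducible P.1) := ⟨P.2.2⟩
  have hfd : FiniteDimensional k (AdjoinRoot P.1) := P.2.1.finite_adjoinRoot
  have hfin : Finite (AdjoinRoot P.1) := Module.finite_of_finite k
  have hdv : ∀ (a : ℂ) (n : ℕ), (PowerSeries.X : PowerSeries ℂ) ^ n ∣
      (1 - PowerSeries.C a * PowerSeries.X ^ n) - 1 := by
    intro a n
    rw [sub_right_comm, sub_self, zero_sub]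
    exact (dvd_neg).2 (dvd_mul_left _ _)
  unfold Pool.Agent.K4H5.KD.LP Pool.Agent.Y709.Gen.fibG
  rw [Pool.Agent.Y709.expand_euler
    (fun n => Pool.Agent.W313.Hyp.finite_deg_le (F := AdjoinRoot P.1) n)
    (Pool.Agent.Y709.deg_ne P) (fun Q => hdv _ _)]
  show Pool.Agent.W343.BSD.eulerProd _ _ = _
  congr 1
  funext Q
  rw [map_sub, map_one, map_mul, map_pow, PowerSeries.expand_X, PowerSeries.expand_C, ← pow_mul]
  rfl

theorem mult_le_lambda [Finite k] (φ : AlgInt →+* AlgebraicClosure k) (H : ℂ[X]) (ζ : ℂ)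
    (u : AlgebraicClosure k) (hu : HasResidue φ ζ u) :
    H.rootMultiplicity ((Nat.card k : ℂ) * ζ)⁻¹ ≤ lambda φ u H := by
  classical
  have hq : (Nat.card k : ℂ) ≠ 0 := Nat.cast_ne_zero.2 Nat.card_pos.ne'
  unfold lambda
  rw [← count_roots, Multiset.count_eq_card_filter_eq]
  refine Multiset.card_le_card ?_
  refine Multiset.monotone_filter_right _ ?_
  rintro y rfl
  rw [mul_inv (Nat.card k : ℂ) ζ, ← mul_assoc, mul_inv_cancel₀ hq, one_mul, inv_inv]
  exact hu

theorem lambda_eq [Fintype k] (φ : AlgInt →+* AlgebraicClosure k) (u : AlgebraicClosure k) (H : ℂ[X]) :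
    lambda φ u H = Pool.Agent.K4H5.KD.lam φ (Fintype.card k : ℂ) u H := by
  unfold lambda Pool.Agent.K4H5.KD.lam
  rw [Nat.card_eq_fintype_card]
  rfl

section ram

variable {O : Type} [CommRing O] [Algebra k[X] O] (G : Type) [Group G] [Finite G]
  [MulSemiringAction G O]

theorem mem_iff [Finite k] [IsGaloisGroup G k[X] O] (P : ClosedPt k) (𝔪 : MaximalSpectrum O) :
    algebraMap k[X] O P.1 ∈ 𝔪.asIdeal ↔ 𝔪 ∈ Pool.Agent.Y709.Lay.above k P := by
  have hfd := Pool.Agent.Y709.Lay.finiteDim_RO (k := k) G 𝔪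
  constructor
  · intro hP
    have h4 : Pool.Agent.Y709.Lay.vO k 𝔪 P.1 = 0 := (Pool.Agent.Y709.Lay.vO_eq_zero k).2 hP
    rw [Pool.Agent.Y709.Lay.vO_zero_iff] at h4
    have h5 := (Pool.Agent.Y709.Lay.pt (k := k) 𝔪).2
    show (Pool.Agent.Y709.Lay.pt (k := k) 𝔪).1 = P.1
    exact eq_of_monic_of_associated h5.1 P.2.1 (h5.2.associated_of_dvd P.2.2 h4)
  · intro h
    have h5 : (Pool.Agent.Y709.Lay.pt (k := k) 𝔪).1 = P.1 := h
    rw [← Pool.Agent.Y709.Lay.vO_eq_zero k, Pool.Agent.Y709.Lay.vO_zero_iff, h5]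

theorem ramIndex_eq [Fintype k] [IsGaloisGroup G k[X] O] [FaithfulSMul k[X] O] (P : ClosedPt k)
    (𝔪 : MaximalSpectrum O) (h : algebraMap k[X] O P.1 ∈ 𝔪.asIdeal) :
    ramIndex k G O P = Nat.card (𝔪.asIdeal.inertia G) := by
  have hm := (mem_iff G P 𝔪).1 h
  have h1 : {e | ∃ 𝔪 : MaximalSpectrum O, algebraMap k[X] O P.1 ∈ 𝔪.asIdeal ∧
      e = Nat.card (𝔪.asIdeal.inertia G)} = {Nat.card (𝔪.asIdeal.inertia G)} := by
    ext e
    rw [Set.mem_singleton_iff]
    constructor
    · rintro ⟨𝔫, h𝔫, rfl⟩
      have hn := (mem_iff G P 𝔫).1 h𝔫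
      have h2 := Pool.Agent.Y709.Lay.inertia_mul G hm
      have h3 := Pool.Agent.Y709.Lay.inertia_mul G hn
      rw [Pool.Agent.K4H5.KD.inertiaDeg_above G hn hm] at h3
      have h4 : 0 < Nat.card G := Nat.card_pos
      rw [mul_right_comm] at h2 h3
      have h5 : 0 < (Pool.Agent.Y709.Lay.above k P : Set (MaximalSpectrum O)).ncard *
          𝔪.asIdeal.inertiaDeg k[X] := by
        rw [← h2] at h4
        exact Nat.pos_of_mul_pos_right h4
      exact Nat.eq_of_mul_eq_mul_left h5 (h3.trans h2.symm)
    · rintro rfl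
      exact ⟨𝔪, h, rfl⟩
  unfold ramIndex
  rw [h1, csSup_singleton]

theorem defect_eq [Fintype k] [IsGaloisGroup G k[X] O] [FaithfulSMul k[X] O] (P : ClosedPt k)
    (h : P ∈ ramified k G O) :
    Pool.Agent.K4H5.BC.defect O G P = Nat.card G - Nat.card G / ramIndex k G O P := by
  obtain ⟨𝔪, h1, -⟩ := h
  rw [ramIndex_eq G P 𝔪 h1, Pool.Agent.K4H5.KD.defect_eq G ((mem_iff G P 𝔪).1 h1)]

end ram

theorem only_of_noF (k : Type) [Field k] [Fintype k] (p : ℕ) [hp : Fact p.Prime] [CharP k p]
    {q a s r : ℕ} (hq : q = p ^ a) (ha : 0 < a) (hs : 0 < s) (hk : Fintype.card k = q ^ s)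
    (h5 : 5 ≤ q) (hr : 0 < r) (B₁ : k[X]) (β : Fin (r + 1) → k[X]) (m : Fin (r + 1) → ℕ)
    (hm : ∀ i, 0 < m i) (hmp : ∑ i, m i < p) (hmq : ∑ i, m i < q - 1) (D : k[X]) (e : ℕ)
    (he : 0 < e) (T : Finset k) (hT : ∀ u : AlgebraicClosure k, u ^ e = 1 →
      ∃ c ∈ T, algebraMap k (AlgebraicClosure k) c ^ ((Fintype.card k - 1) / (q - 1)) = u⁻¹)
    (hD : ¬ Pool.Agent.K4H5.US.HasF p a q T B₁ β m D) :
    OnlyLocalZeros k p (q - 1) e (curve B₁ m β D) := by
  classical
  have hcard : Nat.card k = Fintype.card k := Nat.card_eq_fintype_card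
  intro χ hχ φ hφ G O _ _ _ _ _ hO H Hloc hH hloc
  have hφ' : ∀ u : k, ∃ x : Pool.Agent.K4H5.BC.AI, (x : ℂ) = χ u ∧
      φ x = algebraMap k (AlgebraicClosure k) u ^ ((Fintype.card k - 1) / (q - 1)) := by
    intro u
    rw [← hcard]
    exact hφ u
  have i6 := hO.galois
  have i7 : FaithfulSMul k[X] O := (faithfulSMul_iff_algebraMap_injective _ _).2 hO.injective
  obtain ⟨g', hg⟩ := hO.pGroup
  obtain ⟨B, hB, hgen⟩ := hO.generic
  have hun : ∀ 𝔪 : MaximalSpectrum O, Pool.Agent.Y709.Lay.vO k 𝔪 B ≠ 0 →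
      𝔪.asIdeal.inertia G = ⊥ := by
    intro 𝔪 h𝔪
    apply hgen
    intro h0
    exact h𝔪 ((Pool.Agent.Y709.Lay.vO_eq_zero k).2 h0)
  -- the ramified places
  have hsub : ramified k G O ⊆ (Pool.Agent.K4H5.BC.divs B : Finset (ClosedPt k)) := by
    rintro P ⟨𝔪, hP, hI⟩
    rw [Finset.mem_coe, Pool.Agent.K4H5.BC.mem_divs hB]
    have hfd := Pool.Agent.Y709.Lay.finiteDim_RO (k := k) G 𝔪
    have h3 : Pool.Agent.Y709.Lay.vO k 𝔪 B = 0 := by
      by_contra h
      exact hI (hun 𝔪 h)
    have h4 : Pool.Agent.Y709.Lay.vO k 𝔪 P.1 = 0 := (Pool.Agent.Y709.Lay.vO_eq_zero k).2 hP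
    rw [Pool.Agent.Y709.Lay.vO_zero_iff] at h3 h4
    have h5 := (Pool.Agent.Y709.Lay.pt (k := k) 𝔪).2
    have h6 : (Pool.Agent.Y709.Lay.pt (k := k) 𝔪).1 = P.1 :=
      eq_of_monic_of_associated h5.1 P.2.1 (h5.2.associated_of_dvd P.2.2 h4)
    rw [← h6]
    exact h3
  have hfin : (ramified k G O).Finite := (Finset.finite_toSet _).subset hsub
  have hdef0 : ∀ P : ClosedPt k, P ∉ ramified k G O →
      Pool.Agent.K4H5.BC.defect O G P = 0 := by
    intro P hP
    by_contra h
    obtain ⟨𝔪, h𝔪, hI⟩ := Pool.Agent.K4H5.BC.defect_ne (O := O) G h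
    exact hP ⟨𝔪, (mem_iff G P 𝔪).2 h𝔪, hI⟩
  have hsubF : hfin.toFinset ⊆ Pool.Agent.K4H5.BC.divs B := by
    intro P hP
    rw [Set.Finite.mem_toFinset] at hP
    exact Finset.mem_coe.1 (hsub hP)
  have hsum : ∀ w : ClosedPt k → ℕ, ∑ P ∈ Pool.Agent.K4H5.BC.divs B,
      Pool.Agent.K4H5.BC.defect O G P * w P =
        ∑ᶠ P ∈ ramified k G O, (Nat.card G - Nat.card G / ramIndex k G O P) * w P := by
    intro w
    rw [finsum_mem_eq_finite_toFinset_sum _ hfin]
    symm
    refine (Finset.sum_congr rfl fun P hP => ?_).trans (Finset.sum_subset hsubF ?_)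
    · rw [Set.Finite.mem_toFinset] at hP
      rw [defect_eq G P hP]
    · intro P _ hP
      rw [Set.Finite.mem_toFinset] at hP
      rw [hdef0 P hP, zero_mul]
  rw [Lfun_eq] at hH
  obtain ⟨h1, u₀, uloc, h2, h3, h4⟩ := Pool.Agent.K4H5.US.kida_split k p hq ha hs hk h5 hr B₁ β m
    hm hmp hmq D e T hT (fun c hc h => hD ⟨c, hc, h⟩) χ φ hφ' G O g' hg B hB hun H hH Hloc (by
      intro P _ hd
      rw [← Lplace_eq]
      apply hloc
      by_contra h
      exact hd (hdef0 P h))
  refine ⟨?_, ?_, ?_⟩
  · intro u hu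
    have hu0 : u ≠ 0 := by
      rintro rfl
      rw [zero_pow he.ne'] at hu
      exact zero_ne_one hu
    rw [lambda_eq, h1 u hu hu0, hsum]
    refine finsum_congr fun P => finsum_congr fun _ => ?_
    rw [lambda_eq]
  · rw [hcard]
    have hdefP : ∀ P ∈ ramified k G O, Pool.Agent.K4H5.BC.defect O G P ≠ 0 := by
      intro P hP
      obtain ⟨𝔪, h5, h6⟩ := hP
      exact (Pool.Agent.K4H5.KD.defect_pos G ((mem_iff G P 𝔪).1 h5) h6).ne'
    have h3' : ∀ P ∈ ramified k G O,
        HasResidue φ ((Hloc P).eval (Fintype.card k : ℂ)⁻¹) (uloc P) := fun P hP =>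
      h3 P (Finset.mem_coe.1 (hsub hP)) (hdefP P hP)
    rw [unitAt_iff h4]
    constructor
    · intro h P hP
      rw [unitAt_iff (h3' P hP)]
      intro h0
      refine left_ne_zero_of_mul h (Finset.prod_eq_zero (Finset.mem_coe.1 (hsub hP)) ?_)
      rw [h0, zero_pow (hdefP P hP)]
    · intro h6
      refine mul_ne_zero (Finset.prod_ne_zero_iff.2 fun P _ => ?_) h2
      by_cases hP : P ∈ ramified k G O
      · exact pow_ne_zero _ ((unitAt_iff (h3' P hP)).1 (h6 P hP))
      · rw [hdef0 P hP, pow_zero]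
        exact one_ne_zero
  · intro ζ u _ hu
    exact mult_le_lambda φ H ζ u hu

end place

/-- **The conjecture of Birch and Swinnerton-Dyer in the universal family of split superelliptic curves,
over all Galois extensions of `k(t)` of `p`-power degree.**

Let `q` be a power of the prime number `p`, `k` a finite extension of the field with `q` elements, `e` a
divisor of `q - 1` (for example `e = 1`), `m_0, …, m_r ≥ 1` integers, `r ≥ 1`, with the sum `n < p`, `B ≠ 0` in
`k[t]` without zeros of a multiplicity above `b` (for example `B = 1`, `b = 0`), and `4 (r + 1) ^ 2 ≤ q`. For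
polynomials `D`, `β_0, …, β_r` in `k[t]` let `A` be the part of the Jacobian of the curve
`y ^ (q - 1) = D(t) B(t) ∏ (x - β_i(t)) ^ (m_i)` over `k(t)` belonging to the characters of exact order `q - 1` of the
group of roots of unity. Let `d ≥ 1` be ANY degree, and `N + deg B + d n = (q - 1) M + ρ` with `2 r < ρ < q - 1` and
`M ≥ 8 (r + 1) ^ 2 (deg B + d n + 1)` (all large `N` outside of `2 r + 1` residue classes modulo `q - 1`).

Theorem.
* (The universal family.) If `b + n + 3 r + 4 ≤ q` and `r n ≤ q - 1`, then for all but a proportion of at most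
  `((r + 1) ^ 4 + 2 e) / q` of ALL the tuples `(D, β_0, …, β_r)` with `deg D ≤ N`, `deg β_i ≤ d`, the `L`-functions
  of `A` have only local zeros (`OnlyLocalZeros`): for ALL Galois extensions `L` of `k(t)` of `p`-power degree at
  once (any `p`-group, any wild ramification, larger fields of constants are allowed) and all places `φ` above
  `p` as in `IsPlace`, the number `lambda_u(H)` of the zeros `1 / α` of the `L`-function `H(T)` over `L` such that
  `α / #k` has the residue `u`, `u ^ e = 1`, is exactly the sum over the places `P ≠ ∞` ramified in `L` of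
  `[L : k(t)] (1 - 1 / e_P) lambda_u(Hloc_P)`, where `Hloc_P` is the `L`-function of the fibre at `P`, and
  `H(1 / #k)`, the value at `s = 1`, is a unit at `φ` if and only if all `Hloc_P(1 / #k)` are.
* (Every pencil.) If the differences `β_i - β_j` of fixed sections of degree at most `d` have exactly the
  degree `d`, then the same holds for all but a proportion of at most `2 r e / q` of the `D`, if
  `b + r d n + 3 r + 4 ≤ q`, with arbitrary collisions of the sections at finite points, and also, for all `d`, if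
  the product of the differences is squarefree, `b + n + 3 r + 4 ≤ q` and `r n ≤ q - 1`.

Meaning, for the conjecture of Birch and Swinnerton-Dyer. If `A` is outside of the exceptional set, then
over `k(t)` itself `lambda_1 = 0`: `L(A / k(t), 1)` is a unit at `φ`, in particular not zero. For all `L` the order
of vanishing of `L(A / L, s)` at `s = 1`, and so the rank of `A(L)`, is bounded by the sum of the local terms,
also over the extension `L k_e` of `L`, `k_e` of degree `e` over `k` (its `L`-function is the product over the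
`ζ`, `ζ ^ e = 1`, of `H(ζ T)`). If no ramified place `P ≠ ∞` is anomalous, that is, no `α / (#k) ^ (deg P)` for the
eigenvalues `α` of the Frobenius on the `χ`-part of the fibre at `P` is `1` modulo `φ` (with the `e`-th roots
of unity for `L k_e`), then `L(A / L, 1) ≠ 0`, so `A(L)` and the Tate–Shafarevich group are finite and the
formula of Birch and Swinnerton-Dyer holds (Tate, Milne, Kato–Trihan); a place with bad reduction at which
`D B` vanishes is never anomalous. So full Birch–Swinnerton-Dyer holds for almost all members of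
the universal family of split superelliptic curves for `q → ∞`, uniformly in the genus of the field `L`, in
the degrees `d` and `N`, that is in the conductor of `A`, and over all these infinitely many fields `L` at once.

The proof: an own zero gives a vector `w ≠ 0` of polynomials with `C(D Φ w) = w` for the Cartier operator `C` and a
matrix `Φ` of periods (functional equation modulo `φ`). If `Φ` is irreducible such `D` are rare, and it is
irreducible for sections with simple collisions; all but `(r + 1) ^ 4 / #k` of the tuples of sections are of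
this kind (a sieve). In general, for `d n + 2 ≤ q`, every subspace stable under `Φ` is spanned by CONSTANT
vectors, since the Cartier operator reduces the degrees, so `Φ` is block triangular in a constant basis. -/
theorem result (k : Type) [Field k] [Finite k] (p : ℕ) [Fact p.Prime] [CharP k p] (a s q : ℕ)
    (ha : 0 < a) (hs : 0 < s) (hq : q = p ^ a) (hk : Nat.card k = q ^ s) (e : ℕ) (he : e ∣ q - 1)
    (r : ℕ) (hr : 0 < r) (m : Fin (r + 1) → ℕ) (hm : ∀ i, 0 < m i) (n : ℕ) (hn : n = ∑ i, m i)
    (hnp : n < p) (hrq : 4 * (r + 1) ^ 2 ≤ q) (B : k[X]) (hB : B ≠ 0) (b : ℕ)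
    (hb : ∀ P : k[X], Irreducible P → ¬ P ^ (b + 1) ∣ B) (d : ℕ) (hd : 0 < d) (M ρ N : ℕ)
    (hM : 8 * (r + 1) ^ 2 * (B.natDegree + d * n + 1) ≤ M) (hρ : 2 * r < ρ) (hρq : ρ + 1 < q)
    (hN : N + (B.natDegree + d * n) = (q - 1) * M + ρ) :
    (∀ χ : MulChar k ℂ, orderOf χ = q - 1 →
      ∃ φ : AlgInt →+* AlgebraicClosure k, IsPlace (q - 1) χ φ) ∧
    (twists k N).ncard = Nat.card k ^ (N + 1) ∧
    (twists k N ×ˢ sections k r d).ncard = Nat.card k ^ (N + 1 + (r + 1) * (d + 1)) ∧
    (b + n + 3 * r + 4 ≤ q → r * n ≤ q - 1 →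
      q * {x ∈ twists k N ×ˢ sections k r d |
          ¬ OnlyLocalZeros k p (q - 1) e (curve B m x.2 x.1)}.ncard ≤
        ((r + 1) ^ 4 + 2 * e) * (twists k N ×ˢ sections k r d).ncard) ∧
    ∀ β ∈ sections k r d, (∀ i j, i ≠ j → (β i - β j).natDegree = d) →
      (b + r * (d * n) + 3 * r + 4 ≤ q ∨
        (Squarefree (∏ i, ∏ j ∈ Finset.Ioi i, (β j - β i)) ∧ b + n + 3 * r + 4 ≤ q ∧
          r * n ≤ q - 1)) →
      q * {D ∈ twists k N | ¬ OnlyLocalZeros k p (q - 1) e (curve B m β D)}.ncard ≤
        2 * r * e * (twists k N).ncard := by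
  have hFk : Fintype k := Fintype.ofFinite k
  have hcard : Nat.card k = Fintype.card k := Nat.card_eq_fintype_card
  have hkF : Fintype.card k = q ^ s := by rw [← hcard, hk]
  subst hn
  have hR : 4 ≤ (r + 1) ^ 2 := by nlinarith
  have hq5 : 5 ≤ q := by omega
  have hq1 : 0 < q - 1 := by omega
  have he0 : 0 < e := Nat.pos_of_dvd_of_pos he hq1
  obtain ⟨T, hTe, hT0, hT⟩ := Pool.Agent.K4H5.US.exists_T (k := k) (AlgebraicClosure k)
    (q := q) (s := s) (by omega) hkF he
  have h0 : (twists k N).ncard = Nat.card k ^ (N + 1) :=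
    Pool.Agent.Y709.ncard_natDegree_le N
  have h0' : (twists k N ×ˢ sections k r d).ncard =
      Nat.card k ^ (N + 1) * Nat.card k ^ ((r + 1) * (d + 1)) := by
    rw [Set.ncard_prod, h0]
    congr 1
    exact Pool.Agent.K4H5.US.ncard_sections d
  refine ⟨?_, h0, ?_, ?_, ?_⟩
  · intro χ hχ
    have hdiv : q - 1 ∣ Fintype.card k - 1 := by
      rw [hkF]
      have := Nat.sub_dvd_pow_sub_pow q 1 s
      rwa [one_pow] at this
    obtain ⟨φ, hφ⟩ := Pool.Agent.K4H5.KD.exists_phi k hq1 hdiv χ hχ (j := 1)
      (Nat.coprime_one_left _) Nat.one_pos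
    refine ⟨φ, fun u => ?_⟩
    obtain ⟨x, h1, h2⟩ := hφ u
    refine ⟨x, h1, ?_⟩
    rw [h2, one_mul, hcard]
  · rw [h0', ← pow_add]
  · intro hnb hrn
    rw [h0']
    have h1 := Pool.Agent.K4H5.US.count_univ' hq ha hs hkF B hB b hb (m := m) hd hm hnp hnb hrn hrq
      _ ρ M N rfl (by omega) (by omega) hM hN T hT0 hTe
    refine le_trans (Nat.mul_le_mul_left q (Set.ncard_le_ncard ?_ ?_)) h1
    · rintro x ⟨hx, hne⟩
      refine ⟨hx.1, hx.2, ?_⟩
      by_contra h
      exact hne (only_of_noF k p hq ha hs hkF hq5 hr B x.2 m hm hnp (by omega) x.1 e he0 T hT h)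
    · exact ((Pool.Agent.Y709.finite_natDegree_le N).prod
        (Pool.Agent.K4H5.US.sections_finite d)).subset fun x hx => ⟨hx.1, hx.2.1⟩
  · intro β hβ hβd hc
    rw [h0]
    have h1 := Pool.Agent.K4H5.US.count_pencil hq ha hs hkF B hB b hb (m := m) hr hd hβ hβd hm hnp hc
      hrq _ ρ M N rfl (by omega) (by omega) hM hN T hT0 hTe
    have hmq : ∑ i, m i < q - 1 := by
      rcases hc with hc | ⟨_, hc, _⟩
      · have h2 : d * ∑ l, m l ≤ r * (d * ∑ l, m l) := Nat.le_mul_of_pos_left _ hr
        have h3 : ∑ l, m l ≤ d * ∑ l, m l := Nat.le_mul_of_pos_left _ hd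
        omega
      · omega
    refine le_trans (Nat.mul_le_mul_left q (Set.ncard_le_ncard ?_ ?_)) h1
    · rintro D ⟨hx, hne⟩
      refine ⟨hx, ?_⟩
      by_contra h
      exact hne (only_of_noF k p hq ha hs hkF hq5 hr B β m hm hnp hmq D e he0 T hT h)
    · exact (Pool.Agent.Y709.finite_natDegree_le N).subset fun D hD => hD.1

end Pool.Agent.Results.MP_60d5ce_nt.PExtensionsUniversalFamily
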